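import Pool.Agent.T2h38.AD.Stm

/-! The theorem from its parts. -/

set_option autoImplicit false

open MeasureTheory Set Complex
open scoped ENNReal NNReal FourierTransform ComplexConjugate

namespace Pool.Agent.T2h38.AD

open Pool.Agent.H153R4

theorem fin_AD (hMZ : S_MZ) (hB2 : S_B2) (hB4 : S_B4) (hBQ : S_BQ) (hSM : S_SM) (hMA : S_MA)
    (hUB : S_UB) (hCH : S_CH) (hNRM : S_NRM) (α q L A : ℝ) (hα : 0 < α)
    (hq : 2 + 2 / (1 + α) < q) (hq4 : q < 4) :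
    ∃ C : ℝ≥0, ∀ μ : Measure ℝ,
    (∀ a r : ℝ, 0 < r → r ≤ 1 → μ (Icc a (a + r)) ≤ ENNReal.ofReal (A * r ^ α)) →
    ∀ f : E 2 → ℂ, MemLp f (ENNReal.ofReal q) (volume.restrict (Metric.ball 0 (1 / 2))) →
      ∫⁻ l in Icc 1 L, (∫⁻ ξ : E 3, ‖ext (Metric.ball 0 (1 / 2)) (dilate l f) ξ‖ₑ ^ q) ∂μ ≤
        C * ∫⁻ x in Metric.ball (0 : E 2) (1 / 2), ‖f x‖ₑ ^ q := by
  have h1 := hMA (hBQ hMZ hB2 hB4) hSM
  have h2 : ∀ (m : ℕ) (α q : ℝ), 0 < α → 2 + 2 / (1 + α) < q → q < 4 →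
    ∀ (L A : ℝ), 1 ≤ L → 0 < A →
    ∃ C : ℝ≥0∞, C < ⊤ ∧ ∀ μ : Measure (Fin m → ℝ), Frost μ A α →
      ∀ g : E (m + 1) → ℂ, Measurable g → (∀ z, z ∉ cube (m + 1) → g z = 0) →
        II μ L q univ g ≤ C * ∫⁻ z, ‖g z‖ₑ ^ q := by
    intro m α q hα hq hq4 L A hL hA
    obtain ⟨C, hC, h⟩ := h1 m α q hα hq hq4 L A hL hA
    refine ⟨C + 1, ENNReal.add_lt_top.2 ⟨hC, ENNReal.one_lt_top⟩, fun μ hμ g hg hs => ?_⟩
    have := hμ.locfin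
    have hq1 : 1 ≤ q := by
      have : 0 < 2 / (1 + α) := by positivity
      linarith
    exact hUB m q L hq1 C μ inferInstance (h μ hμ) g hg hs
  exact hNRM (fun c hc => hCH h2 1 c hc) α q L A hα hq hq4

end Pool.Agent.T2h38.AD
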