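import Pool.Agent.T2h38.AD.T_NRM

/-! The averaged inequality implies finiteness for almost every dilate. -/

set_option autoImplicit false

open MeasureTheory Set Complex
open scoped ENNReal NNReal FourierTransform ComplexConjugate RealInnerProductSpace

namespace Pool.Agent.T2h38.AD

open Pool.Agent.H153R4

lemma meas_ext0_dil (q : ℝ) {g : (Fin (1 + 1) → ℝ) → ℂ} (hg : Measurable g) :
    Measurable fun l : ℝ => ∫⁻ y : (Fin (1 + 1) → ℝ) × ℝ,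
      ‖ext0 (fun _ => 1) (dil (fun _ : Fin 1 => l) g) y‖ₑ ^ q := by
  have h1 : Measurable fun r : (ℝ × ((Fin (1 + 1) → ℝ) × ℝ)) × (Fin (1 + 1) → ℝ) =>
      dil (fun _ : Fin 1 => r.1.1) g r.2 *
        cexp (2 * Real.pi * I * (ph (fun _ => 1) r.2 r.1.2 : ℂ)) := by
    have h2 : Measurable fun r : (ℝ × ((Fin (1 + 1) → ℝ) × ℝ)) × (Fin (1 + 1) → ℝ) =>
        ph (fun _ => 1) r.2 r.1.2 := by
      unfold ph
      fun_prop
    have h3 : Measurable fun r : (ℝ × ((Fin (1 + 1) → ℝ) × ℝ)) × (Fin (1 + 1) → ℝ) =>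
        dv (fun _ : Fin 1 => r.1.1) * r.2 := by
      refine measurable_pi_iff.2 fun j => ?_
      refine Fin.cases ?_ (fun i => ?_) j
      · simp only [Pi.mul_apply, dv, Fin.cons_zero]
        fun_prop
      · simp only [Pi.mul_apply, dv, Fin.cons_succ]
        fun_prop
    exact (hg.comp h3).mul (Complex.measurable_exp.comp
      (measurable_const.mul (Complex.measurable_ofReal.comp h2)))
  have h4 : Measurable fun p : ℝ × ((Fin (1 + 1) → ℝ) × ℝ) =>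
      ext0 (fun _ => 1) (dil (fun _ : Fin 1 => p.1) g) p.2 := by
    unfold ext0
    exact (h1.stronglyMeasurable.integral_prod_right').measurable
  exact (h4.enorm.pow_const q).lintegral_prod_right'

open NRM in
/-- almost every dilate -/
theorem ae_dilate (q : ℝ) (hq : 0 < q) (f : E 2 → ℂ)
    (hf : MemLp f (ENNReal.ofReal q) (volume.restrict (Metric.ball 0 (1 / 2))))
    (μ : Measure ℝ)
    (H : ∀ L : ℝ, ∃ C : ℝ≥0,
      ∫⁻ l in Icc 1 L, (∫⁻ ξ : E 3, ‖ext (Metric.ball 0 (1 / 2)) (dilate l f) ξ‖ₑ ^ q) ∂μ ≤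
        C * ∫⁻ x in Metric.ball (0 : E 2) (1 / 2), ‖f x‖ₑ ^ q) :
    ∀ᵐ l ∂(μ.restrict (Ici 1)),
      ∫⁻ ξ : E 3, ‖ext (Metric.ball 0 (1 / 2)) (dilate l f) ξ‖ₑ ^ q < ⊤ := by
  have hU : (Ici 1 : Set ℝ) = ⋃ n : ℕ, Icc 1 (n : ℝ) := by
    ext x
    simp only [mem_Ici, mem_iUnion, mem_Icc]
    constructor
    · intro h
      obtain ⟨n, hn⟩ := exists_nat_ge x
      exact ⟨n, h, hn⟩
    · rintro ⟨n, h, -⟩
      exact h
  rw [hU, ae_restrict_iUnion_iff]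
  intro n
  obtain ⟨g, hgm, hgs, hfg⟩ := exists_rep f _ hf
  obtain ⟨C, hC⟩ := H n
  have hfin : ∫⁻ x in Metric.ball (0 : E 2) (1 / 2), ‖f x‖ₑ ^ q < ⊤ := by
    have := lintegral_rpow_enorm_lt_top_of_eLpNorm_lt_top (p := ENNReal.ofReal q)
      (by simpa using hq) ENNReal.ofReal_ne_top hf.2
    rwa [ENNReal.toReal_ofReal hq.le] at this
  have h1 : ∫⁻ l in Icc 1 (n : ℝ), (∫⁻ ξ : E 3,
      ‖ext (Metric.ball 0 (1 / 2)) (dilate l f) ξ‖ₑ ^ q) ∂μ ≠ ⊤ :=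
    (lt_of_le_of_lt hC (ENNReal.mul_lt_top ENNReal.coe_lt_top hfin)).ne
  have hm : AEMeasurable (fun l : ℝ => ∫⁻ ξ : E 3,
      ‖ext (Metric.ball 0 (1 / 2)) (dilate l f) ξ‖ₑ ^ q) (μ.restrict (Icc 1 (n : ℝ))) := by
    refine ⟨fun l : ℝ => ENNReal.ofReal ((2 * Real.pi) ^ 3) * ∫⁻ y : (Fin (1 + 1) → ℝ) × ℝ,
      ‖ext0 (fun _ => 1) (dil (fun _ : Fin 1 => l) g) y‖ₑ ^ q,
      (meas_ext0_dil q hgm).const_mul _, ?_⟩
    filter_upwards [ae_restrict_mem measurableSet_Icc] with l hl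
    exact lint_ext l hl.1 q f g hfg
  exact ae_lt_top' hm h1

end Pool.Agent.T2h38.AD
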