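import Pool.Agent.H153R4.Chg

/-!
# Project AD (helper38, MP_5ab805_an): averaged anisotropic dilates, `L^q → L^q`

Goal: for `0 < α ≤ 1`, `2 + 2/(1+α) < q < 4` (for `α = 1` this is the whole open range `3 < q < 4`), every
measure `μ` on `[1, L]` with `μ(I) ≤ A |I|^α` and every `f ∈ L^q(B(0,1/2))`, with
`f_l(x) = f(x_0, l x_1)`: `∫ ‖E f_l‖_{L^q(ℝ³)}^q dμ(l) ≤ C ‖f‖_{L^q}^q`.

The library `Pool.Agent.H153R4` proves this for bounded `f` with `‖f‖_∞` in place of `‖f‖_q`. All parts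
below are adaptations of its files, except for `S_MZ` (Marcinkiewicz interpolation).
-/

set_option autoImplicit false

open MeasureTheory Set Complex
open scoped ENNReal NNReal FourierTransform ComplexConjugate

namespace Pool.Agent.T2h38.AD

open Pool.Agent.H153R4

/-- LOC: local constancy with the `L²` norm.
Proof: copy `H153R4.loc_int` (file `H153R4/Gauss.lean`). Only the last step changes: by `plancherel`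
`∫ ‖𝓕 (up ψ)‖² = ∫ ‖up ψ‖²`, and `‖up ψ z‖ₑ ≤ ofReal (exp (π n)) ‖ψ z‖ₑ`, because `ψ z = 0` if `z` is not in
the cube and `‖z‖² ≤ n` in the cube (`norm_sq_cube`). -/
def S_LOC : Prop := ∀ (n : ℕ) (Y : Type) [MeasurableSpace Y] (ν : Measure Y) [SFinite ν]
  (θ : Y → E n), Measurable θ → ∀ K : ℝ≥0∞, (∀ z : E n, ∫⁻ y, ENNReal.ofReal (gm (z - θ y)) ∂ν ≤ K) →
  ∀ (M : ℝ) (ψ : E n → ℂ), BS M ψ →
  ∫⁻ y, ‖𝓕 ψ (θ y)‖ₑ ^ 2 ∂ν ≤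
    K * (ENNReal.ofReal (Real.exp (Real.pi * n)) ^ 2 * ∫⁻ z, ‖ψ z‖ₑ ^ 2)

/-- B4: the fourth moment of a block.
Proof: copy `H153R4.block4` (file `H153R4/Block.lean`), with `S_LOC` in place of `loc_int` and
`∫ ‖kk g h z‖² dz ≤ ∫ ‖g‖⁴` for every `h` (`kk g h z = g (z + h) * conj (g z)`,
`a² b² ≤ (a⁴ + b⁴)/2` and translation invariance, or Cauchy-Schwarz). The constant is
`(∫_{Q2} ∏ |h_j|^(β-1) dh) * ofReal (exp (π (m+1)))^2`, finite by `J_fin`. `Frost.locfin` gives the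
instances for `μ`. -/
def S_B4 : Prop := ∀ (m : ℕ) (β : ℝ), 0 < β → β ≤ 1 → ∃ C : ℝ≥0∞, C < ⊤ ∧
  ∀ (μ : Measure (Fin m → ℝ)) (A α L T : ℝ), 0 ≤ A → 1 ≤ L → 1 ≤ T → Frost μ A α →
  ∀ (M : ℝ) (g : E (m + 1) → ℂ), BS M g →
  ∫⁻ p, (∫⁻ x, ‖𝓕 (ch (sv p) g) x‖ₑ ^ 4)
      ∂((volume.restrict (ST T)).prod (μ.restrict (Icc (fun _ => -L) (fun _ => L)))) ≤
    ENNReal.ofReal (KT m A α L T β) * (C * ∫⁻ z, ‖g z‖ₑ ^ 4)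

/-- B2: the second moment of a block. Proof: `two_ch`, `ST_vol`, `Frost.mass` (see the first lines of
`H153R4.block2` and of `H153R4.block_q`). -/
def S_B2 : Prop := ∀ (m : ℕ) (μ : Measure (Fin m → ℝ)) (A α L T : ℝ), 0 ≤ A → 1 ≤ L → 1 ≤ T →
  Frost μ A α → ∀ (M : ℝ) (g : E (m + 1) → ℂ), BS M g →
  ∫⁻ p, (∫⁻ x, ‖𝓕 (ch (sv p) g) x‖ₑ ^ 2)
      ∂((volume.restrict (ST T)).prod (μ.restrict (Icc (fun _ => -L) (fun _ => L)))) ≤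
    ENNReal.ofReal (2 * T * (NL m L * A)) * ∫⁻ z, ‖g z‖ₑ ^ 2

/-- MZ: Marcinkiewicz interpolation between `L²` and `L⁴` (strong type at both ends).
Proof. Let `γ = √(A / B)` and for `t > 0` split `g = g₁ + g₂` with `g₁ = g` where `‖g‖ > γ t`, `0` elsewhere.
`{‖T g‖ > t} ⊆ {‖T g₁‖ > t/2} ∪ {‖T g₂‖ > t/2}`, so by Chebyshev
`ν {‖T g‖ > t} ≤ 4 t⁻² A ∫_{‖g‖ > γ t} ‖g‖² + 16 t⁻⁴ B ∫_{‖g‖ ≤ γ t} ‖g‖⁴`. By the layer cake formula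
(`lintegral_rpow_eq_lintegral_meas_lt_mul`, or with `∫⁻`) and Tonelli (integrate over `t` first)
`∫ ‖T g‖^q = q ∫_0^∞ t^(q-1) ν {‖T g‖ > t} dt ≤ 4 q A ∫ ‖g‖² ∫_0^{‖g‖/γ} t^(q-3) dt +
16 q B ∫ ‖g‖⁴ ∫_{‖g‖/γ}^∞ t^(q-5) dt = 4 q A γ^(2-q)/(q-2) ∫ ‖g‖^q + 16 q B γ^(4-q)/(4-q) ∫ ‖g‖^q`, and
`A γ^(2-q) = A^((4-q)/2) B^((q-2)/2) = B γ^(4-q)`. (`TH297/QC/Marc.lean`, `Helper249/TMarc.lean` may be
useful.) -/
def S_MZ : Prop := ∀ q : ℝ, 2 < q → q < 4 → ∃ C : ℝ≥0∞, C < ⊤ ∧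
  ∀ (X V : Type) [MeasurableSpace X] [MeasurableSpace V] (ν : Measure X) (μ : Measure V) [SFinite ν]
    [SFinite μ] (P : (V → ℂ) → Prop) (T : (V → ℂ) → X → ℂ) (A B : ℝ), 0 < A → 0 < B →
  (∀ g, P g → Measurable g ∧ Measurable (T g)) →
  (∀ g, P g → ∀ r : ℝ, P (fun v => if r < ‖g v‖ then g v else 0) ∧
    P (fun v => if r < ‖g v‖ then 0 else g v) ∧
    ∀ x, T g x = T (fun v => if r < ‖g v‖ then g v else 0) x +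
      T (fun v => if r < ‖g v‖ then 0 else g v) x) →
  (∀ g, P g → ∫⁻ x, ‖T g x‖ₑ ^ 2 ∂ν ≤ ENNReal.ofReal A * ∫⁻ v, ‖g v‖ₑ ^ 2 ∂μ) →
  (∀ g, P g → ∫⁻ x, ‖T g x‖ₑ ^ 4 ∂ν ≤ ENNReal.ofReal B * ∫⁻ v, ‖g v‖ₑ ^ 4 ∂μ) →
  ∀ g, P g → ∫⁻ x, ‖T g x‖ₑ ^ q ∂ν ≤
    C * ENNReal.ofReal (A ^ ((4 - q) / 2) * B ^ ((q - 2) / 2)) * ∫⁻ v, ‖g v‖ₑ ^ q ∂μ

/-- BQ: the `q`-th moment of a block.
Proof: `S_MZ` with `X = (ℝ × (Fin m → ℝ)) × E (m + 1)`, `ν` the product measure (of the measure in `II`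
and `volume`), `V = E (m + 1)`, `P g = ∃ M, BS M g`, `T g w = 𝓕 (ch (sv w.1) g) w.2` (measurable:
`meas_Fch`; additive: the Fourier transform is additive on integrable functions, `BS.ch`, `BS.int`,
`ch` is linear; the truncations are `BS M`), `A = 2 T (NL m L * A)` and `B = KT m A α L T β * C`
(with `C` of `S_B4`, which may be replaced by `max C 1`, real and positive); `lintegral_prod` turns the
integrals into those of `S_B2`, `S_B4`, `II`. Last `const_eq`. `NL m L > 0`, `KT > 0`. -/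
def S_BQ : Prop := S_MZ → S_B2 → S_B4 → ∀ (m : ℕ) (β q : ℝ), 0 < β → β ≤ 1 → 2 < q → q < 4 →
  ∃ C : ℝ≥0∞, C < ⊤ ∧
  ∀ (μ : Measure (Fin m → ℝ)) (A α L T : ℝ), 0 < A → 1 ≤ L → 1 ≤ T → Frost μ A α →
  ∀ (M : ℝ) (g : E (m + 1) → ℂ), BS M g →
  II μ L q (ST T) g ≤
    C * ENNReal.ofReal (CA m A L q * T ^ ((4 - q) / 2 - (α - (m + 1) * β) * ((q - 2) / 2))) *
      ∫⁻ z, ‖g z‖ₑ ^ q

/-- SM: small times.
Proof: `‖𝓕 (ch s g) x‖ₑ ≤ ∫ ‖g‖ₑ =: I`, so `∫ ‖𝓕 (ch s g)‖^q ≤ I^(q-2) ∫ ‖g‖²` by `two_ch`; by Hölder on the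
cube (finite volume) `I ≤ V^(1-1/q) (∫ ‖g‖^q)^(1/q)` and `∫ ‖g‖² ≤ V^(1-2/q) (∫ ‖g‖^q)^(2/q)`. The measure of the
`p` is at most `ofReal 2 * ofReal (NL m L * A)` (`Frost.mass`). -/
def S_SM : Prop := ∀ (m : ℕ) (q : ℝ), 2 < q → ∃ C : ℝ≥0∞, C < ⊤ ∧
  ∀ (μ : Measure (Fin m → ℝ)) (A α L : ℝ), 0 ≤ A → 1 ≤ L → Frost μ A α →
  ∀ (M : ℝ) (g : E (m + 1) → ℂ), BS M g →
  II μ L q (Icc (-1) 1) g ≤ C * ENNReal.ofReal (NL m L * A) * ∫⁻ z, ‖g z‖ₑ ^ q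

/-- MA: all times. Proof: copy `H153R4.main_low` (file `H153R4/Main.lean`): `choose_beta`, `II_univ`,
`S_SM`, `S_BQ`, geometric series. -/
def S_MA : Prop := (∀ (m : ℕ) (β q : ℝ), 0 < β → β ≤ 1 → 2 < q → q < 4 →
    ∃ C : ℝ≥0∞, C < ⊤ ∧
    ∀ (μ : Measure (Fin m → ℝ)) (A α L T : ℝ), 0 < A → 1 ≤ L → 1 ≤ T → Frost μ A α →
    ∀ (M : ℝ) (g : E (m + 1) → ℂ), BS M g →
    II μ L q (ST T) g ≤
      C * ENNReal.ofReal (CA m A L q * T ^ ((4 - q) / 2 - (α - (m + 1) * β) * ((q - 2) / 2))) *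
        ∫⁻ z, ‖g z‖ₑ ^ q) → S_SM →
  ∀ (m : ℕ) (α q : ℝ), 0 < α → 2 + 2 / (1 + α) < q → q < 4 → ∀ (L A : ℝ), 1 ≤ L → 0 < A →
  ∃ C : ℝ≥0∞, C < ⊤ ∧ ∀ μ : Measure (Fin m → ℝ), Frost μ A α →
    ∀ (M : ℝ) (g : E (m + 1) → ℂ), BS M g → II μ L q univ g ≤ C * ∫⁻ z, ‖g z‖ₑ ^ q

/-- UB: from bounded to all functions in `L^q`.
Proof: `g_k = g` where `‖g‖ ≤ k`, `0` elsewhere, is `BS k`, `∫ ‖g_k‖^q ≤ ∫ ‖g‖^q`; if `∫ ‖g‖^q = ∞` the claim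
is clear if `C ≠ 0` (take `C + 1`); otherwise `g` is integrable (support in the cube) and
`𝓕 (ch s g_k) x → 𝓕 (ch s g) x` by dominated convergence; Fatou (`lintegral_liminf_le`, twice, for the two
integrals in `II`, or once for the product measure). -/
def S_UB : Prop := ∀ (m : ℕ) (q L : ℝ), 1 ≤ q → ∀ (C : ℝ≥0∞) (μ : Measure (Fin m → ℝ)), SFinite μ →
  (∀ (M : ℝ) (g : E (m + 1) → ℂ), BS M g → II μ L q univ g ≤ C * ∫⁻ z, ‖g z‖ₑ ^ q) →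
  ∀ g : E (m + 1) → ℂ, Measurable g → (∀ z, z ∉ cube (m + 1) → g z = 0) →
  II μ L q univ g ≤ (C + 1) * ∫⁻ z, ‖g z‖ₑ ^ q

/-- the dilate `f_l(ξ) = f(ξ_0, l_1 ξ_1, ..., l_m ξ_m)` -/
noncomputable def dil {m : ℕ} (l : Fin m → ℝ) (f : (Fin (m + 1) → ℝ) → ℂ)
    (ξ : Fin (m + 1) → ℝ) : ℂ := f (dv l * ξ)

/-- CH: change of variables. Proof: copy the second half of the proof of
`Pool.Agent.Results.MP_b7167f_an.AveragedDilates.result` (file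
`Pool/Agent/Results/MP_b7167f_an/AveragedDilates.lean`; `key_le`, `Frost.push`, `II_eq`), where
`g` is now only measurable with support in the cube `[-1,1]^(m+1)`. -/
def S_CH : Prop := (∀ (m : ℕ) (α q : ℝ), 0 < α → 2 + 2 / (1 + α) < q → q < 4 →
    ∀ (L A : ℝ), 1 ≤ L → 0 < A →
    ∃ C : ℝ≥0∞, C < ⊤ ∧ ∀ μ : Measure (Fin m → ℝ), Frost μ A α →
      ∀ g : E (m + 1) → ℂ, Measurable g → (∀ z, z ∉ cube (m + 1) → g z = 0) →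
        II μ L q univ g ≤ C * ∫⁻ z, ‖g z‖ₑ ^ q) →
  ∀ (m : ℕ) (c : Fin (m + 1) → ℝ), (∀ j, c j ≠ 0) → ∀ (α q L A : ℝ), 0 < α →
  2 + 2 / (1 + α) < q → q < 4 →
  ∃ C : ℝ≥0∞, C < ⊤ ∧ ∀ μ : Measure (Fin m → ℝ),
    (∀ (a : Fin m → ℝ) (r : ℝ), 0 < r → r ≤ 1 →
      μ (Icc a fun j => a j + r) ≤ ENNReal.ofReal (A * r ^ α)) →
    ∀ g : (Fin (m + 1) → ℝ) → ℂ, Measurable g →
      (∀ ξ, ξ ∉ Icc (-1 : Fin (m + 1) → ℝ) 1 → g ξ = 0) →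
      ∫⁻ l in Icc (fun _ => 1) (fun _ => L),
          (∫⁻ y : (Fin (m + 1) → ℝ) × ℝ, ‖ext0 c (dil l g) y‖ₑ ^ q) ∂μ ≤
        C * ∫⁻ ξ, ‖g ξ‖ₑ ^ q

/-- the points of the paraboloid -/
noncomputable def Phi (x : E 2) : E 3 := !₂[x 0, x 1, x 0 ^ 2 + x 1 ^ 2]

open scoped RealInnerProductSpace in
/-- the Fourier extension operator of the paraboloid over `U` -/
noncomputable def ext (U : Set (E 2)) (f : E 2 → ℂ) (ξ : E 3) : ℂ :=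
  ∫ x in U, Complex.exp (-((⟪Phi x, ξ⟫ : ℝ) : ℂ) * I) * f x

/-- the dilate `f_l(x) = f(x_0, l x_1)` of a function on the disc `B(0,1/2)` (zero if this point is
outside the disc) -/
noncomputable def dilate (l : ℝ) (f : E 2 → ℂ) (x : E 2) : ℂ :=
  (Metric.ball (0 : E 2) (1 / 2)).indicator f !₂[x 0, l * x 1]

/-- NRM: the normalisation of the problem. Proof: for `l ≥ 1` the function `dilate l f` vanishes outside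
the disc, so `ext (ball 0 (1/2)) (dilate l f) ξ = ∫ e^{-iΦ(x)·ξ} (dilate l f)(x) dx` over the plane. Let
`g : (Fin 2 → ℝ) → ℂ` be a measurable function, equal a.e. to `x ↦ (ball).indicator f (toLp x)`, zero
outside the disc. Up to a null set `dilate l f` is `dil ![l] g` (`dil_map`), and
`ext ... ξ = ext0 1 (dil ![l] g) y` with `y = (-(ξ_0, ξ_1)/(2π), -ξ_2/(2π))` (`ext0` has the phase
`2π (x · y.1 + |x|² y.2)`). The change of variables `ξ ↦ y` multiplies the integral by `(2π)³`. The measure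
`μ` on `ℝ` is moved to `Fin 1 → ℝ` by `MeasurableEquiv.funUnique`. -/
def S_NRM : Prop := (∀ (c : Fin 2 → ℝ), (∀ j, c j ≠ 0) → ∀ (α q L A : ℝ), 0 < α →
    2 + 2 / (1 + α) < q → q < 4 →
    ∃ C : ℝ≥0∞, C < ⊤ ∧ ∀ μ : Measure (Fin 1 → ℝ),
      (∀ (a : Fin 1 → ℝ) (r : ℝ), 0 < r → r ≤ 1 →
        μ (Icc a fun j => a j + r) ≤ ENNReal.ofReal (A * r ^ α)) →
      ∀ g : (Fin (1 + 1) → ℝ) → ℂ, Measurable g →
        (∀ ξ, ξ ∉ Icc (-1 : Fin (1 + 1) → ℝ) 1 → g ξ = 0) →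
        ∫⁻ l in Icc (fun _ => 1) (fun _ => L),
            (∫⁻ y : (Fin (1 + 1) → ℝ) × ℝ, ‖ext0 c (dil l g) y‖ₑ ^ q) ∂μ ≤
          C * ∫⁻ ξ, ‖g ξ‖ₑ ^ q) →
  ∀ (α q L A : ℝ), 0 < α → 2 + 2 / (1 + α) < q → q < 4 →
  ∃ C : ℝ≥0, ∀ μ : Measure ℝ,
    (∀ a r : ℝ, 0 < r → r ≤ 1 → μ (Icc a (a + r)) ≤ ENNReal.ofReal (A * r ^ α)) →
    ∀ f : E 2 → ℂ, MemLp f (ENNReal.ofReal q) (volume.restrict (Metric.ball 0 (1 / 2))) →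
      ∫⁻ l in Icc 1 L, (∫⁻ ξ : E 3, ‖ext (Metric.ball 0 (1 / 2)) (dilate l f) ξ‖ₑ ^ q) ∂μ ≤
        C * ∫⁻ x in Metric.ball (0 : E 2) (1 / 2), ‖f x‖ₑ ^ q

end Pool.Agent.T2h38.AD
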