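import Pool.Agent.T2h38.AD.Stm

set_option autoImplicit false

open MeasureTheory Set Complex
open scoped ENNReal NNReal FourierTransform ComplexConjugate

namespace Pool.Agent.T2h38.AD

open Pool.Agent.H153R4

theorem t_B2 : S_B2 := by
  intro m μ A α L T hA hL hT hμ M g hg
  have := hμ.locfin
  have : SFinite μ := inferInstance
  simp only [two_ch hg]
  rw [lintegral_const]
  have h1 : ((volume.restrict (ST T)).prod
      (μ.restrict (Icc (fun _ : Fin m => -L) (fun _ => L)))) univ =
      volume (ST T) * μ (Icc (fun _ : Fin m => -L) (fun _ => L)) := by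
    rw [← univ_prod_univ, Measure.prod_prod, Measure.restrict_apply_univ,
      Measure.restrict_apply_univ]
  rw [h1, mul_comm]
  gcongr
  rw [ENNReal.ofReal_mul (by linarith)]
  gcongr
  · exact ST_vol T (by linarith)
  · exact hμ.mass L

end Pool.Agent.T2h38.AD
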