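import Pool.Agent.T2h38.AD.Stm

set_option autoImplicit false

open MeasureTheory Set Complex
open scoped ENNReal NNReal FourierTransform ComplexConjugate

namespace Pool.Agent.T2h38.AD

open Pool.Agent.H153R4

namespace B4

lemma kk_l2 {n : ℕ} {g : E n → ℂ} (hg : Measurable g) (h : E n) :
    ∫⁻ z, ‖kk g h z‖ₑ ^ 2 ≤ ∫⁻ z, ‖g z‖ₑ ^ 4 := by
  have hm : Measurable fun z : E n => ‖g z‖ₑ ^ 2 := hg.enorm.pow_const 2
  have hm1 : Measurable fun z : E n => ‖g (z + h)‖ₑ ^ 2 :=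
    hm.comp (measurable_id.add_const h)
  have h0 : ∀ z, ‖kk g h z‖ₑ ^ 2 = ‖g (z + h)‖ₑ ^ 2 * ‖g z‖ₑ ^ 2 := by
    intro z
    unfold kk
    rw [enorm_mul, mul_pow]
    congr 2
    rw [← ofReal_norm, ← ofReal_norm, RCLike.norm_conj]
  simp only [h0]
  have hh := ENNReal.lintegral_mul_le_Lp_mul_Lq (volume : Measure (E n))
    Real.HolderConjugate.two_two (f := fun z => ‖g (z + h)‖ₑ ^ 2) (g := fun z => ‖g z‖ₑ ^ 2)
    hm1.aemeasurable hm.aemeasurable
  have h1 : ∫⁻ z, (‖g (z + h)‖ₑ ^ 2) ^ (2 : ℝ) = ∫⁻ z, ‖g z‖ₑ ^ 4 := by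
    rw [← lintegral_add_right_eq_self (fun z => ‖g z‖ₑ ^ 4) h]
    congr 1
    ext z
    rw [ENNReal.rpow_ofNat, ← pow_mul]
  have h2 : ∫⁻ z, (‖g z‖ₑ ^ 2) ^ (2 : ℝ) = ∫⁻ z, ‖g z‖ₑ ^ 4 := by
    congr 1
    ext z
    rw [ENNReal.rpow_ofNat, ← pow_mul]
  rw [h1, h2] at hh
  refine hh.trans (le_of_eq ?_)
  rw [← ENNReal.rpow_add_of_nonneg _ _ (by norm_num) (by norm_num)]
  norm_num

end B4

theorem t_B4 (hLOC : S_LOC) : S_B4 := by
  intro m β hβ0 hβ1
  refine ⟨(∫⁻ h in Q2 (m + 1), ∏ j, ENNReal.ofReal (|h j| ^ (β - 1))) *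
    ENNReal.ofReal (Real.exp (Real.pi * (m + 1 : ℕ))) ^ 2,
    ENNReal.mul_lt_top (J_fin (m + 1) β hβ0) (ENNReal.pow_lt_top ENNReal.ofReal_lt_top), ?_⟩
  intro μ A α L T hA hL hT hμ M g hg
  have := hμ.locfin
  have : SFinite μ := inferInstance
  set ν := (volume.restrict (ST T)).prod (μ.restrict (Icc (fun _ : Fin m => -L) (fun _ => L)))
    with hν
  simp only [four_ch hg]
  have hm := (meas_FK (m := m) hg.meas).enorm.pow_const 2
  rw [lintegral_lintegral_swap (by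
    exact (hm.comp measurable_swap).aemeasurable)]
  set R : ℝ≥0∞ := ENNReal.ofReal (Real.exp (Real.pi * (m + 1 : ℕ))) ^ 2 *
    ∫⁻ z, ‖g z‖ₑ ^ 4 with hR
  have hae : ∀ᵐ h : E (m + 1), ∫⁻ p, ‖𝓕 (kk g h) (dd (sv p) h)‖ₑ ^ 2 ∂ν ≤
      (Q2 (m + 1)).indicator (fun h => (ENNReal.ofReal (KT m A α L T β) *
        ∏ j, ENNReal.ofReal (|h j| ^ (β - 1))) * R) h := by
    filter_upwards [ae_ne_zero (m + 1)] with h hh0
    by_cases hh : h ∈ Q2 (m + 1)
    · rw [indicator_of_mem hh]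
      have h1 := hLOC (m + 1) (ℝ × (Fin m → ℝ)) ν (fun p => dd (sv p) h) (by
        unfold dd
        apply (PiLp.volume_preserving_toLp (Fin (m + 1))).measurable.comp
        rw [measurable_pi_iff]
        intro j
        have hs : Measurable fun p : ℝ × (Fin m → ℝ) => sv p j :=
          (measurable_pi_apply j).comp sv_meas
        exact (measurable_const.mul hs).mul measurable_const)
        (ENNReal.ofReal (KT m A α L T β) * ∏ j, ENNReal.ofReal (|h j| ^ (β - 1)))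
        (fun z => nu_bound μ A α L T β hA hL hT hμ hβ0.le hβ1 h z hh hh0) _ (kk g h) (hg.kk h)
      exact h1.trans (mul_le_mul' le_rfl (mul_le_mul' le_rfl (B4.kk_l2 hg.meas h)))
    · rw [indicator_of_notMem hh]
      have h1 : ∃ j, 2 < |h j| := by
        by_contra hc
        push Not at hc
        exact hh hc
      have h2 : kk g h = 0 := by
        ext z
        exact kk_zero hg h h1 z
      have h3 : ∀ y, 𝓕 (kk g h) y = 0 := by
        intro y
        rw [h2, Real.fourier_eq]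
        simp
      simp [h3]
  refine (lintegral_mono_ae hae).trans ?_
  rw [lintegral_indicator (Q2_meas _), lintegral_mul_const _ (by fun_prop),
    lintegral_const_mul _ (by fun_prop)]
  apply le_of_eq
  rw [hR]
  ring

end Pool.Agent.T2h38.AD
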