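import Pool.Agent.T2h38.AD.Stm

/-!
# Project AD, task BQ: the `q`-th moment of a block
-/

set_option autoImplicit false

open MeasureTheory Set Complex
open scoped ENNReal NNReal FourierTransform ComplexConjugate RealInnerProductSpace

namespace Pool.Agent.T2h38.AD

open Pool.Agent.H153R4

namespace BQ

lemma tr_hi {n : ℕ} {M : ℝ} {g : E n → ℂ} (hg : BS M g) (r : ℝ) :
    BS M (fun v => if r < ‖g v‖ then g v else 0) := by
  refine ⟨Measurable.ite (measurableSet_lt measurable_const hg.meas.norm) hg.meas measurable_const,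
    fun z => ?_, fun z hz => ?_⟩
  · split_ifs
    · exact hg.bd z
    · rw [norm_zero]; exact hg.M0
  · rw [hg.supp z hz]
    simp

lemma tr_lo {n : ℕ} {M : ℝ} {g : E n → ℂ} (hg : BS M g) (r : ℝ) :
    BS M (fun v => if r < ‖g v‖ then 0 else g v) := by
  refine ⟨Measurable.ite (measurableSet_lt measurable_const hg.meas.norm) measurable_const hg.meas,
    fun z => ?_, fun z hz => ?_⟩
  · split_ifs
    · rw [norm_zero]; exact hg.M0
    · exact hg.bd z
  · rw [hg.supp z hz]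
    simp

lemma four_add {n : ℕ} {M : ℝ} {g g1 g2 : E n → ℂ} (h1 : BS M g1) (h2 : BS M g2)
    (h : ∀ v, g v = g1 v + g2 v) (s : Fin n → ℝ) (x : E n) :
    𝓕 (ch s g) x = 𝓕 (ch s g1) x + 𝓕 (ch s g2) x := by
  have e : ch s g = fun v => ch s g1 v + ch s g2 v := by
    ext v
    simp only [ch]
    rw [h v]
    ring
  have i1 : Integrable (fun v : E n => Real.fourierChar (-⟪v, x⟫) • ch s g1 v) :=
    (Real.fourierIntegral_convergent_iff (f := ch s g1) (μ := (volume : Measure (E n))) x).2 (h1.ch s).int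
  have i2 : Integrable (fun v : E n => Real.fourierChar (-⟪v, x⟫) • ch s g2 v) :=
    (Real.fourierIntegral_convergent_iff (f := ch s g2) (μ := (volume : Measure (E n))) x).2 (h2.ch s).int
  rw [Real.fourier_eq, Real.fourier_eq, Real.fourier_eq, e, ← integral_add i1 i2]
  congr 1
  ext v
  rw [smul_add]

end BQ

theorem t_BQ : S_BQ := by
  intro hMZ hB2 hB4 m β q hβ hβ1 hq2 hq4
  obtain ⟨C0, hC0, H0⟩ := hMZ q hq2 hq4
  obtain ⟨C4, hC4, H4⟩ := hB4 m β hβ hβ1
  obtain ⟨c, hcdef⟩ : ∃ c : ℝ, c = max C4.toReal 1 := ⟨_, rfl⟩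
  have hc : 0 < c := by
    rw [hcdef]
    exact lt_of_lt_of_le one_pos (le_max_right _ _)
  have hC4c : C4 ≤ ENNReal.ofReal c := by
    rw [hcdef, ← ENNReal.ofReal_toReal hC4.ne]
    refine ENNReal.ofReal_le_ofReal ?_
    rw [ENNReal.toReal_ofReal ENNReal.toReal_nonneg]
    exact le_max_left _ _
  refine ⟨C0 * ENNReal.ofReal (c ^ ((q - 2) / 2)), ENNReal.mul_lt_top hC0 ENNReal.ofReal_lt_top, ?_⟩
  intro μ A α L T hA hL hT hμ M g hg
  have hlf : IsLocallyFiniteMeasure μ := hμ.locfin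
  have hT0 : 0 < T := by linarith
  have hN : 0 < NL m L := by unfold NL; positivity
  have hcL : 0 < cL L := by
    unfold cL
    have : 0 < 2 * L + 1 := by linarith
    positivity
  have hKT : 0 < KT m A α L T β := by unfold KT; positivity
  obtain ⟨ν, hν⟩ : ∃ ν : Measure (ℝ × (Fin m → ℝ)), ν = (volume.restrict (ST T)).prod
      (μ.restrict (Icc (fun _ : Fin m => -L) (fun _ => L))) := ⟨_, rfl⟩
  have hνs : SFinite ν := by rw [hν]; infer_instance
  have key := H0 ((ℝ × (Fin m → ℝ)) × E (m + 1)) (E (m + 1)) (ν.prod volume) volume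
    (fun g => ∃ M : ℝ, BS M g) (fun g w => 𝓕 (ch (sv w.1) g) w.2) (2 * T * (NL m L * A))
    (KT m A α L T β * c) (by positivity) (by positivity)
    (fun g ⟨M, hg⟩ => ⟨hg.meas, meas_Fch hg.meas⟩)
    (fun g ⟨M, hg⟩ r => ⟨⟨M, BQ.tr_hi hg r⟩, ⟨M, BQ.tr_lo hg r⟩, fun x =>
      BQ.four_add (BQ.tr_hi hg r) (BQ.tr_lo hg r) (fun v => by split_ifs <;> simp) _ _⟩)
    (by
      rintro g ⟨M, hg⟩
      rw [lintegral_prod _ ((meas_Fch hg.meas).enorm.pow_const 2).aemeasurable, hν]
      exact hB2 m μ A α L T hA.le hL hT hμ M g hg)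
    (by
      rintro g ⟨M, hg⟩
      rw [lintegral_prod _ ((meas_Fch hg.meas).enorm.pow_const 4).aemeasurable, hν]
      refine (H4 μ A α L T hA.le hL hT hμ M g hg).trans ?_
      rw [ENNReal.ofReal_mul hKT.le, mul_assoc]
      gcongr)
    g ⟨M, hg⟩
  rw [lintegral_prod _ ((meas_Fch hg.meas).enorm.pow_const q).aemeasurable, hν] at key
  refine (show II μ L q (ST T) g ≤ _ from key).trans (le_of_eq ?_)
  have e1 : (2 * T * (NL m L * A)) ^ ((4 - q) / 2) * (KT m A α L T β * c) ^ ((q - 2) / 2) =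
      c ^ ((q - 2) / 2) * (CA m A L q * T ^ ((4 - q) / 2 - (α - (m + 1) * β) * ((q - 2) / 2))) := by
    rw [← const_eq m A α L q β T hA.le hL hT0, Real.mul_rpow hKT.le hc.le]
    ring
  rw [e1, ENNReal.ofReal_mul (by positivity), ← mul_assoc C0]

end Pool.Agent.T2h38.AD
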