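import Pool.Agent.T2h38.AD.Stm

set_option autoImplicit false

open MeasureTheory Set Complex
open scoped ENNReal NNReal FourierTransform ComplexConjugate

namespace Pool.Agent.T2h38.AD

open Pool.Agent.H153R4

theorem t_LOC : S_LOC := by
  intro n Y _ ν _ θ hθ K hK M ψ hψ
  have hm : Measurable fun z : E n => ‖𝓕 (up ψ) z‖ₑ ^ 2 :=
    (F_cont hψ.up).measurable.enorm.pow_const 2
  calc ∫⁻ y, ‖𝓕 ψ (θ y)‖ₑ ^ 2 ∂ν
      ≤ ∫⁻ y, (∫⁻ z, ENNReal.ofReal (gm (z - θ y)) * ‖𝓕 (up ψ) z‖ₑ ^ 2) ∂ν :=
        lintegral_mono fun y => loc hψ (θ y)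
    _ = ∫⁻ z, (∫⁻ y, ENNReal.ofReal (gm (z - θ y)) * ‖𝓕 (up ψ) z‖ₑ ^ 2 ∂ν) := by
        rw [lintegral_lintegral_swap]
        apply Measurable.aemeasurable
        have h1 : Measurable fun p : Y × E n => p.2 - θ p.1 :=
          measurable_snd.sub (hθ.comp measurable_fst)
        exact ((gm_meas.comp h1).ennreal_ofReal).mul (hm.comp measurable_snd)
    _ ≤ ∫⁻ z, K * ‖𝓕 (up ψ) z‖ₑ ^ 2 := by
        apply lintegral_mono
        intro z
        have h1 : Measurable fun y : Y => ENNReal.ofReal (gm (z - θ y)) :=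
          (gm_meas.comp (measurable_const.sub hθ)).ennreal_ofReal
        simp only
        rw [lintegral_mul_const _ h1]
        gcongr
        exact hK z
    _ = K * ∫⁻ z, ‖𝓕 (up ψ) z‖ₑ ^ 2 := lintegral_const_mul _ hm
    _ ≤ _ := by
        gcongr
        rw [plancherel _ hψ.up.int (hψ.up.memLp 2)]
        rw [← lintegral_const_mul _ (hψ.meas.enorm.pow_const 2)]
        apply lintegral_mono
        intro z
        simp only
        rw [← mul_pow]
        gcongr
        by_cases hz : z ∈ cube n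
        · unfold H153R4.up
          rw [enorm_mul]
          gcongr
          rw [← ofReal_norm, Complex.norm_real, Real.norm_of_nonneg (Real.exp_pos _).le]
          apply ENNReal.ofReal_le_ofReal
          rw [Real.exp_le_exp]
          exact mul_le_mul_of_nonneg_left (norm_sq_cube hz) Real.pi_pos.le
        · unfold H153R4.up
          rw [hψ.supp z hz]
          simp

end Pool.Agent.T2h38.AD
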