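import Pool.Agent.T2h38.AD.Stm

/-! Project AD, part MA: all times. -/

set_option autoImplicit false

open MeasureTheory Set Complex
open scoped ENNReal NNReal FourierTransform ComplexConjugate

namespace Pool.Agent.T2h38.AD

open Pool.Agent.H153R4

theorem t_MA : S_MA := by
  intro hBQ hSM m α q hα hq hq4 L A hL hA
  obtain ⟨β, hβ0, hβ1, hβ⟩ := choose_beta m α q hα hq
  have hq2 : 2 < q := by
    have : 0 < 2 / (1 + α) := by positivity
    linarith
  obtain ⟨C1, hC1, hB⟩ := hBQ m β q hβ0 hβ1 hq2 hq4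
  obtain ⟨C2, hC2, hS⟩ := hSM m q hq2
  set e : ℝ := (4 - q) / 2 - (α - (m + 1) * β) * ((q - 2) / 2) with he
  set x : ℝ≥0∞ := ENNReal.ofReal ((2 : ℝ) ^ e) with hx
  have hx1 : x < 1 := by
    rw [hx, ENNReal.ofReal_lt_one]
    exact Real.rpow_lt_one_of_one_lt_of_neg (by norm_num) hβ
  have hCA : 0 ≤ CA m A L q := by
    unfold CA cL NL
    positivity
  have hsum : ∑' j : ℕ, ENNReal.ofReal (CA m A L q * ((2 : ℝ) ^ j) ^ e) =
      ENNReal.ofReal (CA m A L q) * (1 - x)⁻¹ := by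
    rw [← ENNReal.tsum_geometric, ← ENNReal.tsum_mul_left]
    congr 1
    ext j
    rw [ENNReal.ofReal_mul hCA, hx, ← ENNReal.ofReal_pow (by positivity)]
    congr 2
    rw [← Real.rpow_natCast, ← Real.rpow_mul (by norm_num), mul_comm, Real.rpow_mul (by norm_num),
      Real.rpow_natCast]
  refine ⟨C2 * ENNReal.ofReal (NL m L * A) +
    C1 * (ENNReal.ofReal (CA m A L q) * (1 - x)⁻¹), ?_, ?_⟩
  · apply ENNReal.add_lt_top.2 ⟨ENNReal.mul_lt_top hC2 ENNReal.ofReal_lt_top, ?_⟩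
    refine ENNReal.mul_lt_top hC1 (ENNReal.mul_lt_top ENNReal.ofReal_lt_top ?_)
    rw [ENNReal.inv_lt_top]
    exact tsub_pos_of_lt hx1
  intro μ hμ M g hg
  have := hμ.locfin
  refine (II_univ μ L q hg.meas).trans ?_
  rw [add_mul]
  apply add_le_add
  · exact hS μ A α L hA.le hL hμ M g hg
  · rw [← hsum, ← ENNReal.tsum_mul_left, ← ENNReal.tsum_mul_right]
    apply ENNReal.tsum_le_tsum
    intro j
    exact hB μ A α L (2 ^ j) hA hL (one_le_pow₀ (by norm_num)) hμ M g hg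

end Pool.Agent.T2h38.AD
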