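import Pool.Agent.T2h38.AD.Stm

/-! Task MZ: Marcinkiewicz interpolation between `L²` and `L⁴`. -/

set_option autoImplicit false

open MeasureTheory Set
open scoped ENNReal NNReal

namespace Pool.Agent.T2h38.AD

namespace MZ

theorem lint_low {b s0 : ℝ} (hb : b < 1) (hs : 0 ≤ s0) :
    ∫⁻ s in Ioc 0 s0, ENNReal.ofReal (s ^ (-b)) = ENNReal.ofReal (s0 ^ (1 - b) / (1 - b)) := by
  have h1 : IntervalIntegrable (fun s : ℝ => s ^ (-b)) volume 0 s0 :=
    intervalIntegral.intervalIntegrable_rpow' (by linarith)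
  rw [intervalIntegrable_iff_integrableOn_Ioc_of_le hs] at h1
  rw [← ofReal_integral_eq_lintegral_ofReal h1]
  · rw [← intervalIntegral.integral_of_le hs, integral_rpow (Or.inl (by linarith))]
    rw [Real.zero_rpow (by linarith), sub_zero, show -b + 1 = 1 - b by ring]
  · filter_upwards [ae_restrict_mem measurableSet_Ioc] with s hs
    exact Real.rpow_nonneg hs.1.le _

theorem lint_high {b s0 : ℝ} (hb : 1 < b) (hs : 0 < s0) :
    ∫⁻ s in Ioi s0, ENNReal.ofReal (s ^ (-b)) = ENNReal.ofReal (s0 ^ (1 - b) / (b - 1)) := by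
  have h1 : IntegrableOn (fun s : ℝ => s ^ (-b)) (Ioi s0) :=
    integrableOn_Ioi_rpow_of_lt (by linarith) hs
  rw [← ofReal_integral_eq_lintegral_ofReal h1]
  · rw [integral_Ioi_rpow_of_lt (by linarith) hs]
    congr 1
    rw [show -b + 1 = 1 - b by ring, ← neg_div_neg_eq, neg_neg, neg_sub]
  · filter_upwards [ae_restrict_mem measurableSet_Ioi] with s hs'
    exact Real.rpow_nonneg (hs.trans hs').le _

/-- the inner integral of the large part -/
theorem inner_low {q gam a : ℝ} (hq : 2 < q) (hg : 0 < gam) (ha : 0 ≤ a) :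
    ∫⁻ t in Ioi (0 : ℝ), ((if gam * t < a then ENNReal.ofReal (a ^ 2) else 0) *
        ENNReal.ofReal (t ^ (q - 3))) ≤
      ENNReal.ofReal (gam ^ (2 - q) / (q - 2)) * ENNReal.ofReal (a ^ q) := by
  have hag : 0 ≤ a / gam := div_nonneg ha hg.le
  have e1 : ∫⁻ t in Ioi (0 : ℝ), ((if gam * t < a then ENNReal.ofReal (a ^ 2) else 0) *
        ENNReal.ofReal (t ^ (q - 3))) ≤
      ∫⁻ t in Ioc (0 : ℝ) (a / gam), ENNReal.ofReal (a ^ 2) * ENNReal.ofReal (t ^ (q - 3)) := by
    rw [← lintegral_indicator measurableSet_Ioi, ← lintegral_indicator measurableSet_Ioc]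
    refine lintegral_mono fun t => ?_
    by_cases h0 : t ∈ Ioi (0 : ℝ)
    · rw [indicator_of_mem h0]
      by_cases h1 : gam * t < a
      · have h2 : t ∈ Ioc (0 : ℝ) (a / gam) := by
          refine ⟨h0, ?_⟩
          rw [le_div_iff₀ hg, mul_comm]
          exact h1.le
        rw [indicator_of_mem h2, if_pos h1]
      · rw [if_neg h1, zero_mul]
        exact zero_le
    · rw [indicator_of_notMem h0]
      exact zero_le
  refine e1.trans (le_of_eq ?_)
  rw [lintegral_const_mul' _ _ ENNReal.ofReal_ne_top]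
  have e2 := lint_low (b := 3 - q) (s0 := a / gam) (by linarith) hag
  rw [show -(3 - q) = q - 3 by ring, show 1 - (3 - q) = q - 2 by ring] at e2
  rw [e2, ← ENNReal.ofReal_mul (by positivity), ← ENNReal.ofReal_mul (by
    have : 0 < q - 2 := by linarith
    positivity)]
  congr 1
  rcases ha.eq_or_lt with rfl | ha'
  · rw [zero_div, Real.zero_rpow (by linarith : q ≠ 0), Real.zero_rpow (by linarith : q - 2 ≠ 0)]
    simp
  rw [Real.div_rpow ha hg.le, show (2 : ℝ) - q = -(q - 2) by ring, Real.rpow_neg hg.le]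
  have e3 : a ^ q = a ^ 2 * a ^ (q - 2) := by
    rw [← Real.rpow_natCast a 2, ← Real.rpow_add ha']
    congr 1
    push_cast
    ring
  rw [e3]
  have : gam ^ (q - 2) ≠ 0 := (Real.rpow_pos_of_pos hg _).ne'
  have : q - 2 ≠ 0 := by linarith
  field_simp

/-- the inner integral of the small part -/
theorem inner_high {q gam a : ℝ} (hq : q < 4) (hg : 0 < gam) (ha : 0 ≤ a) :
    ∫⁻ t in Ioi (0 : ℝ), ((if gam * t < a then 0 else ENNReal.ofReal (a ^ 4)) *
        ENNReal.ofReal (t ^ (q - 5))) ≤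
      ENNReal.ofReal (gam ^ (4 - q) / (4 - q)) * ENNReal.ofReal (a ^ q) := by
  rcases ha.eq_or_lt with rfl | ha'
  · have : ∫⁻ t in Ioi (0 : ℝ), ((if gam * t < (0 : ℝ) then 0 else ENNReal.ofReal ((0 : ℝ) ^ 4)) *
        ENNReal.ofReal (t ^ (q - 5))) = 0 := by
      simp
    rw [this]
    exact zero_le
  have hag : 0 < a / gam := div_pos ha' hg
  have e1 : ∫⁻ t in Ioi (0 : ℝ), ((if gam * t < a then 0 else ENNReal.ofReal (a ^ 4)) *
        ENNReal.ofReal (t ^ (q - 5))) ≤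
      ∫⁻ t in Ici (a / gam), ENNReal.ofReal (a ^ 4) * ENNReal.ofReal (t ^ (q - 5)) := by
    rw [← lintegral_indicator measurableSet_Ioi, ← lintegral_indicator measurableSet_Ici]
    refine lintegral_mono fun t => ?_
    by_cases h0 : t ∈ Ioi (0 : ℝ)
    · rw [indicator_of_mem h0]
      by_cases h1 : gam * t < a
      · rw [if_pos h1, zero_mul]
        exact zero_le
      · have h2 : t ∈ Ici (a / gam) := by
          rw [mem_Ici, div_le_iff₀ hg, mul_comm]
          exact not_lt.1 h1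
        rw [indicator_of_mem h2, if_neg h1]
    · rw [indicator_of_notMem h0]
      exact zero_le
  refine e1.trans (le_of_eq ?_)
  rw [lintegral_const_mul' _ _ ENNReal.ofReal_ne_top, setLIntegral_congr Ioi_ae_eq_Ici.symm]
  have e2 := lint_high (b := 5 - q) (s0 := a / gam) (by linarith) hag
  rw [show -(5 - q) = q - 5 by ring, show 1 - (5 - q) = q - 4 by ring,
    show 5 - q - 1 = 4 - q by ring] at e2
  rw [e2, ← ENNReal.ofReal_mul (by positivity), ← ENNReal.ofReal_mul (by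
    have : 0 < 4 - q := by linarith
    positivity)]
  congr 1
  rw [Real.div_rpow ha hg.le, show (4 : ℝ) - q = -(q - 4) by ring, Real.rpow_neg hg.le]
  have e3 : a ^ q = a ^ 4 * a ^ (q - 4) := by
    rw [← Real.rpow_natCast a 4, ← Real.rpow_add ha']
    congr 1
    push_cast
    ring
  rw [e3]
  have : gam ^ (q - 4) ≠ 0 := (Real.rpow_pos_of_pos hg _).ne'
  have : -(q - 4) ≠ 0 := by linarith
  field_simp

/-- Chebyshev with a power -/
theorem cheb {X : Type} [MeasurableSpace X] (ν : Measure X) {u : X → ℂ} (hu : Measurable u)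
    {s : ℝ} (hs : 0 < s) (k : ℕ) :
    ν {x | s < ‖u x‖} ≤ ENNReal.ofReal ((s ^ k)⁻¹) * ∫⁻ x, ‖u x‖ₑ ^ k ∂ν := by
  have hm : Measurable fun x => ‖u x‖ₑ ^ k := hu.enorm.pow_const k
  have h := mul_meas_ge_le_lintegral (μ := ν) hm (ENNReal.ofReal (s ^ k))
  have hsub : {x | s < ‖u x‖} ⊆ {x | ENNReal.ofReal (s ^ k) ≤ ‖u x‖ₑ ^ k} := by
    intro x hx
    rw [mem_ofPred_eq] at hx ⊢
    rw [ENNReal.ofReal_pow hs.le, ← ofReal_norm]
    exact pow_le_pow_left' (ENNReal.ofReal_le_ofReal hx.le) k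
  have hsk : 0 < s ^ k := pow_pos hs k
  have e : ν {x | s < ‖u x‖} = ENNReal.ofReal ((s ^ k)⁻¹) *
      (ENNReal.ofReal (s ^ k) * ν {x | s < ‖u x‖}) := by
    rw [← mul_assoc, ← ENNReal.ofReal_mul (by positivity), inv_mul_cancel₀ hsk.ne',
      ENNReal.ofReal_one, one_mul]
  rw [e]
  gcongr
  exact (mul_le_mul_right (measure_mono hsub) _).trans h

end MZ

open MZ in
theorem t_MZ : S_MZ := by
  intro q hq2 hq4
  have hq0 : 0 < q := by linarith
  have h2 : 0 < q - 2 := by linarith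
  have h4 : 0 < 4 - q := by linarith
  refine ⟨ENNReal.ofReal (4 * q / (q - 2) + 16 * q / (4 - q)), ENNReal.ofReal_lt_top, ?_⟩
  intro X V _ _ ν μ _ _ P T A B hA hB hmeas hsplit hT2 hT4 g hg
  set gam : ℝ := (A / B) ^ (1 / 2 : ℝ) with hgam
  have hgp : 0 < gam := Real.rpow_pos_of_pos (div_pos hA hB) _
  have hgm : Measurable g := (hmeas g hg).1
  have hTm : Measurable (T g) := (hmeas g hg).2
  -- the functions of `t` and `v`
  set F : ℝ → V → ℝ≥0∞ := fun t v => if gam * t < ‖g v‖ then ENNReal.ofReal (‖g v‖ ^ 2) else 0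
    with hF
  set G : ℝ → V → ℝ≥0∞ := fun t v => if gam * t < ‖g v‖ then 0 else ENNReal.ofReal (‖g v‖ ^ 4)
    with hG
  -- the distribution function
  have hdist : ∀ t : ℝ, 0 < t → ν {x | t < ‖T g x‖} ≤
      ENNReal.ofReal (4 * A * t ^ (-2 : ℝ)) * (∫⁻ v, F t v ∂μ) +
        ENNReal.ofReal (16 * B * t ^ (-4 : ℝ)) * (∫⁻ v, G t v ∂μ) := by
    intro t ht
    obtain ⟨hP1, hP2, hadd⟩ := hsplit g hg (gam * t)
    set g1 : V → ℂ := fun v => if gam * t < ‖g v‖ then g v else 0 with hg1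
    set g2 : V → ℂ := fun v => if gam * t < ‖g v‖ then 0 else g v with hg2
    have hsub : {x | t < ‖T g x‖} ⊆ {x | t / 2 < ‖T g1 x‖} ∪ {x | t / 2 < ‖T g2 x‖} := by
      intro x hx
      rw [mem_ofPred_eq] at hx
      by_contra hcon
      rw [mem_union, mem_ofPred_eq, mem_ofPred_eq, not_or, not_lt, not_lt] at hcon
      have h5 := norm_add_le (T g1 x) (T g2 x)
      rw [← hadd x] at h5
      linarith [hcon.1, hcon.2]
    have ht2 : 0 < t / 2 := by linarith
    have c1 := cheb ν (hmeas g1 hP1).2 ht2 2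
    have c2 := cheb ν (hmeas g2 hP2).2 ht2 4
    have d1 := hT2 g1 hP1
    have d2 := hT4 g2 hP2
    have f1 : ∫⁻ v, ‖g1 v‖ₑ ^ 2 ∂μ = ∫⁻ v, F t v ∂μ := by
      refine lintegral_congr fun v => ?_
      simp only [hg1, hF]
      split_ifs
      · rw [← ofReal_norm, ENNReal.ofReal_pow (norm_nonneg _)]
      · simp
    have f2 : ∫⁻ v, ‖g2 v‖ₑ ^ 4 ∂μ = ∫⁻ v, G t v ∂μ := by
      refine lintegral_congr fun v => ?_
      simp only [hg2, hG]
      split_ifs
      · simp
      · rw [← ofReal_norm, ENNReal.ofReal_pow (norm_nonneg _)]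
    have r1 : ((t / 2) ^ 2)⁻¹ = 4 * t ^ (-2 : ℝ) := by
      rw [Real.rpow_neg ht.le, show (2 : ℝ) = ((2 : ℕ) : ℝ) by norm_num, Real.rpow_natCast]
      push_cast
      field_simp
      norm_num
    have r2 : ((t / 2) ^ 4)⁻¹ = 16 * t ^ (-4 : ℝ) := by
      rw [Real.rpow_neg ht.le, show (4 : ℝ) = ((4 : ℕ) : ℝ) by norm_num, Real.rpow_natCast]
      field_simp
      norm_num
    rw [f1] at d1
    rw [f2] at d2
    refine (measure_mono hsub).trans ((measure_union_le _ _).trans (add_le_add ?_ ?_))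
    · refine c1.trans ((mul_le_mul_right d1 _).trans (le_of_eq ?_))
      rw [r1, ← mul_assoc, ← ENNReal.ofReal_mul (by positivity)]
      congr 2
      ring
    · refine c2.trans ((mul_le_mul_right d2 _).trans (le_of_eq ?_))
      rw [r2, ← mul_assoc, ← ENNReal.ofReal_mul (by positivity)]
      congr 2
      ring
  -- measurability
  have hset : MeasurableSet {p : ℝ × V | gam * p.1 < ‖g p.2‖} :=
    measurableSet_lt (measurable_fst.const_mul gam) (hgm.comp measurable_snd).norm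
  have hFm : Measurable fun p : ℝ × V => F p.1 p.2 :=
    Measurable.ite hset (((hgm.comp measurable_snd).norm.pow_const 2).ennreal_ofReal)
      measurable_const
  have hGm : Measurable fun p : ℝ × V => G p.1 p.2 :=
    Measurable.ite hset measurable_const
      (((hgm.comp measurable_snd).norm.pow_const 4).ennreal_ofReal)
  have hpm : ∀ c : ℝ, Measurable fun p : ℝ × V => ENNReal.ofReal (p.1 ^ c) := fun c =>
    (measurable_fst.pow_const c).ennreal_ofReal
  -- the layer cake formula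
  have e0 : ∫⁻ x, ‖T g x‖ₑ ^ q ∂ν = ENNReal.ofReal q *
      ∫⁻ t in Ioi (0 : ℝ), ν {x | t < ‖T g x‖} * ENNReal.ofReal (t ^ (q - 1)) := by
    rw [← lintegral_rpow_eq_lintegral_meas_lt_mul ν (f := fun x => ‖T g x‖)
      (Filter.Eventually.of_forall fun x => norm_nonneg _) hTm.norm.aemeasurable hq0]
    refine lintegral_congr fun x => ?_
    rw [← ENNReal.ofReal_rpow_of_nonneg (norm_nonneg _) hq0.le, ofReal_norm]
  have e1 : ∫⁻ t in Ioi (0 : ℝ), ν {x | t < ‖T g x‖} * ENNReal.ofReal (t ^ (q - 1)) ≤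
      ∫⁻ t in Ioi (0 : ℝ), (ENNReal.ofReal (4 * A) * (∫⁻ v, F t v * ENNReal.ofReal (t ^ (q - 3)) ∂μ) +
        ENNReal.ofReal (16 * B) * (∫⁻ v, G t v * ENNReal.ofReal (t ^ (q - 5)) ∂μ)) := by
    refine setLIntegral_mono_ae' measurableSet_Ioi (Filter.Eventually.of_forall fun t ht => ?_)
    have ht0 : (0 : ℝ) < t := ht
    refine (mul_le_mul_left (hdist t ht0) _).trans (le_of_eq ?_)
    rw [add_mul]
    have k1 : ENNReal.ofReal (t ^ (q - 3)) = ENNReal.ofReal (t ^ (-2 : ℝ)) *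
        ENNReal.ofReal (t ^ (q - 1)) := by
      rw [← ENNReal.ofReal_mul (by positivity), ← Real.rpow_add ht0]
      congr 2
      ring
    have k2 : ENNReal.ofReal (t ^ (q - 5)) = ENNReal.ofReal (t ^ (-4 : ℝ)) *
        ENNReal.ofReal (t ^ (q - 1)) := by
      rw [← ENNReal.ofReal_mul (by positivity), ← Real.rpow_add ht0]
      congr 2
      ring
    rw [lintegral_mul_const' _ _ ENNReal.ofReal_ne_top,
      lintegral_mul_const' _ _ ENNReal.ofReal_ne_top, k1, k2,
      ENNReal.ofReal_mul (by positivity : (0 : ℝ) ≤ 4 * A),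
      ENNReal.ofReal_mul (by positivity : (0 : ℝ) ≤ 16 * B)]
    ring
  have m1 : Measurable fun p : ℝ × V => F p.1 p.2 * ENNReal.ofReal (p.1 ^ (q - 3)) :=
    hFm.mul (hpm _)
  have m2 : Measurable fun p : ℝ × V => G p.1 p.2 * ENNReal.ofReal (p.1 ^ (q - 5)) :=
    hGm.mul (hpm _)
  have e2 : ∫⁻ t in Ioi (0 : ℝ),
      (ENNReal.ofReal (4 * A) * (∫⁻ v, F t v * ENNReal.ofReal (t ^ (q - 3)) ∂μ) +
        ENNReal.ofReal (16 * B) * (∫⁻ v, G t v * ENNReal.ofReal (t ^ (q - 5)) ∂μ)) =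
      ENNReal.ofReal (4 * A) * (∫⁻ v, (∫⁻ t in Ioi (0 : ℝ), F t v * ENNReal.ofReal (t ^ (q - 3))) ∂μ) +
      ENNReal.ofReal (16 * B) *
        (∫⁻ v, (∫⁻ t in Ioi (0 : ℝ), G t v * ENNReal.ofReal (t ^ (q - 5))) ∂μ) := by
    rw [lintegral_add_left (m1.lintegral_prod_right'.const_mul _),
      lintegral_const_mul' _ _ ENNReal.ofReal_ne_top, lintegral_const_mul' _ _ ENNReal.ofReal_ne_top,
      lintegral_lintegral_swap (f := fun t v => F t v * ENNReal.ofReal (t ^ (q - 3)))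
        m1.aemeasurable,
      lintegral_lintegral_swap (f := fun t v => G t v * ENNReal.ofReal (t ^ (q - 5)))
        m2.aemeasurable]
  have i1 : ∫⁻ v, (∫⁻ t in Ioi (0 : ℝ), F t v * ENNReal.ofReal (t ^ (q - 3))) ∂μ ≤
      ENNReal.ofReal (gam ^ (2 - q) / (q - 2)) * ∫⁻ v, ‖g v‖ₑ ^ q ∂μ := by
    rw [← lintegral_const_mul' _ _ ENNReal.ofReal_ne_top]
    refine lintegral_mono fun v => ?_
    refine (inner_low hq2 hgp (norm_nonneg (g v))).trans (le_of_eq ?_)
    rw [← ENNReal.ofReal_rpow_of_nonneg (norm_nonneg _) hq0.le, ofReal_norm]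
  have i2 : ∫⁻ v, (∫⁻ t in Ioi (0 : ℝ), G t v * ENNReal.ofReal (t ^ (q - 5))) ∂μ ≤
      ENNReal.ofReal (gam ^ (4 - q) / (4 - q)) * ∫⁻ v, ‖g v‖ₑ ^ q ∂μ := by
    rw [← lintegral_const_mul' _ _ ENNReal.ofReal_ne_top]
    refine lintegral_mono fun v => ?_
    refine (inner_high hq4 hgp (norm_nonneg (g v))).trans (le_of_eq ?_)
    rw [← ENNReal.ofReal_rpow_of_nonneg (norm_nonneg _) hq0.le, ofReal_norm]
  rw [e0]
  refine (mul_le_mul_right (e1.trans (e2.le.trans (add_le_add (mul_le_mul_right i1 _)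
    (mul_le_mul_right i2 _)))) _).trans (le_of_eq ?_)
  -- the constants
  have hAB1 : A * gam ^ (2 - q) = A ^ ((4 - q) / 2) * B ^ ((q - 2) / 2) := by
    rw [hgam, ← Real.rpow_mul (by positivity), Real.div_rpow hA.le hB.le]
    have u1 : A * A ^ (1 / 2 * (2 - q)) = A ^ ((4 - q) / 2) := by
      nth_rewrite 1 [← Real.rpow_one A]
      rw [← Real.rpow_add hA]
      congr 1
      ring
    have u2 : (B ^ (1 / 2 * (2 - q)))⁻¹ = B ^ ((q - 2) / 2) := by
      rw [← Real.rpow_neg hB.le]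
      congr 1
      ring
    rw [mul_div_assoc', u1, div_eq_mul_inv, u2]
  have hAB2 : B * gam ^ (4 - q) = A ^ ((4 - q) / 2) * B ^ ((q - 2) / 2) := by
    rw [hgam, ← Real.rpow_mul (by positivity), Real.div_rpow hA.le hB.le]
    have u1 : A ^ (1 / 2 * (4 - q)) = A ^ ((4 - q) / 2) := by
      congr 1
      ring
    have u2 : B * (B ^ (1 / 2 * (4 - q)))⁻¹ = B ^ ((q - 2) / 2) := by
      rw [← Real.rpow_neg hB.le]
      nth_rewrite 1 [← Real.rpow_one B]
      rw [← Real.rpow_add hB]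
      congr 1
      ring
    rw [u1, ← u2]
    ring
  rw [← mul_assoc, ← mul_assoc, ← add_mul, ← mul_assoc]
  congr 1
  rw [← ENNReal.ofReal_mul (by positivity), ← ENNReal.ofReal_mul (by positivity),
    ← ENNReal.ofReal_add (by positivity) (by positivity), ← ENNReal.ofReal_mul hq0.le,
    ← ENNReal.ofReal_mul (by positivity)]
  congr 1
  have v1 : 4 * A * (gam ^ (2 - q) / (q - 2)) = 4 * (A * gam ^ (2 - q)) / (q - 2) := by ring
  have v2 : 16 * B * (gam ^ (4 - q) / (4 - q)) = 16 * (B * gam ^ (4 - q)) / (4 - q) := by ring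
  rw [v1, v2, hAB1, hAB2]
  ring

end Pool.Agent.T2h38.AD
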