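import Pool.Agent.T2h38.AD.Stm
set_option autoImplicit false

open MeasureTheory Set Complex
open scoped ENNReal NNReal FourierTransform ComplexConjugate RealInnerProductSpace

namespace Pool.Agent.T2h38.AD

open Pool.Agent.H153R4

namespace NRM

/-- the point in the space of `ext0` -/
noncomputable def yy (ξ : E 3) : (Fin (1 + 1) → ℝ) × ℝ :=
  (fun j => (-(2 * Real.pi)⁻¹) * ξ (Fin.castSucc j), (-(2 * Real.pi)⁻¹) * ξ (Fin.last 2))

theorem lint_prod (H : (Fin (1 + 1) → ℝ) × ℝ → ℝ≥0∞) :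
    ∫⁻ y, H y = ∫⁻ w : Fin 3 → ℝ, H (fun j => w (Fin.castSucc j), w (Fin.last 2)) := by
  have h1 := (volume_preserving_piFinSuccAbove (fun _ : Fin 3 => ℝ) (Fin.last 2)).lintegral_comp_emb
    (MeasurableEquiv.measurableEmbedding _) (fun p => H (p.2, p.1))
  have h2 := (Measure.measurePreserving_swap (μ := (volume : Measure (Fin (1 + 1) → ℝ)))
    (ν := (volume : Measure ℝ))).lintegral_comp_emb
    (MeasurableEquiv.prodComm.measurableEmbedding) (fun p => H (p.2, p.1))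
  have h3 : ∫⁻ y, H y = ∫⁻ p : ℝ × (Fin (1 + 1) → ℝ), H (p.2, p.1) := by
    refine Eq.trans ?_ h2
    rfl
  rw [h3]
  refine h1.symm.trans ?_
  refine lintegral_congr fun w => ?_
  congr 1
  refine Prod.ext ?_ rfl
  funext j
  show w ((Fin.last 2).succAbove j) = _
  rw [Fin.succAbove_last]

theorem lint_yy (H : (Fin (1 + 1) → ℝ) × ℝ → ℝ≥0∞) :
    ∫⁻ ξ : E 3, H (yy ξ) = ENNReal.ofReal ((2 * Real.pi) ^ 3) * ∫⁻ y, H y := by
  have hr : (-(2 * Real.pi)⁻¹ : ℝ) ≠ 0 := by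
    have := Real.pi_pos
    exact neg_ne_zero.2 (inv_ne_zero (by positivity))
  set F : E 3 → ℝ≥0∞ := fun w => H (fun j => w (Fin.castSucc j), w (Fin.last 2)) with hF
  have h1 : ∀ ξ : E 3, H (yy ξ) = F ((-(2 * Real.pi)⁻¹ : ℝ) • ξ) := by
    intro ξ
    rfl
  simp only [h1]
  have h2 := (Homeomorph.smulOfNeZero (-(2 * Real.pi)⁻¹ : ℝ) hr).measurableEmbedding.lintegral_map
    (μ := (volume : Measure (E 3))) F
  have h3 := Measure.map_addHaar_smul (volume : Measure (E 3)) hr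
  have h4 : Measure.map (⇑(Homeomorph.smulOfNeZero (-(2 * Real.pi)⁻¹ : ℝ) hr))
      (volume : Measure (E 3)) = ENNReal.ofReal ((2 * Real.pi) ^ 3) • volume := by
    refine Eq.trans h3 ?_
    congr 1
    congr 1
    rw [finrank_euclideanSpace, Fintype.card_fin, ← inv_pow, inv_neg, inv_inv, abs_pow, abs_neg,
      abs_of_nonneg (by positivity)]
  rw [h4, lintegral_smul_measure, smul_eq_mul] at h2
  refine h2.symm.trans ?_
  congr 1
  rw [lint_prod, ← (PiLp.volume_preserving_ofLp (Fin 3)).lintegral_comp_emb (emb_ofLp 3)]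

lemma exists_rep (f : E 2 → ℂ) (p : ℝ≥0∞)
    (hf : MemLp f p (volume.restrict (Metric.ball (0 : E 2) (1 / 2)))) :
    ∃ g : (Fin (1 + 1) → ℝ) → ℂ, Measurable g ∧
      (∀ ξ, ξ ∉ Icc (-1 : Fin (1 + 1) → ℝ) 1 → g ξ = 0) ∧
      ∀ᵐ z : Fin (1 + 1) → ℝ,
        (Metric.ball (0 : E 2) (1 / 2)).indicator f (WithLp.toLp 2 z) = g z := by
  obtain ⟨f', hf'm, hf'⟩ := hf.1
  have hB : MeasurableSet (Metric.ball (0 : E 2) (1 / 2)) := Metric.isOpen_ball.measurableSet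
  have hT : Measurable (fun z : Fin 2 → ℝ => (WithLp.toLp 2 z : E 2)) :=
    (MeasurableEquiv.toLp 2 (Fin 2 → ℝ)).measurable
  refine ⟨fun z => (Metric.ball (0 : E 2) (1 / 2)).indicator f' (WithLp.toLp 2 z),
    (hf'm.measurable.indicator hB).comp hT, ?_, ?_⟩
  · intro z hz
    refine indicator_of_notMem (fun h => hz ?_) _
    have h1 : ∀ j, |z j| ≤ 1 := by
      intro j
      have h2 := PiLp.norm_apply_le (WithLp.toLp 2 z : E 2) j
      rw [mem_ball_zero_iff] at h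
      rw [Real.norm_eq_abs] at h2
      have h3 : |z j| ≤ ‖(WithLp.toLp 2 z : E 2)‖ := h2
      linarith
    exact ⟨fun j => (abs_le.1 (h1 j)).1, fun j => (abs_le.1 (h1 j)).2⟩
  · have h2 : ∀ᵐ x : E 2, (Metric.ball (0 : E 2) (1 / 2)).indicator f x =
        (Metric.ball (0 : E 2) (1 / 2)).indicator f' x := by
      have h3 := (ae_restrict_iff' hB).1 hf'
      filter_upwards [h3] with x hx
      by_cases h : x ∈ Metric.ball (0 : E 2) (1 / 2)
      · rw [indicator_of_mem h, indicator_of_mem h, hx h]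
      · rw [indicator_of_notMem h, indicator_of_notMem h]
    exact (PiLp.volume_preserving_toLp (Fin 2)).quasiMeasurePreserving.ae h2

lemma mem_of_dil {l : ℝ} (hl : 1 ≤ l) {x : E 2}
    (h : (!₂[x 0, l * x 1] : E 2) ∈ Metric.ball (0 : E 2) (1 / 2)) :
    x ∈ Metric.ball (0 : E 2) (1 / 2) := by
  rw [mem_ball_zero_iff] at h ⊢
  refine lt_of_le_of_lt ?_ h
  rw [EuclideanSpace.norm_eq, EuclideanSpace.norm_eq]
  apply Real.sqrt_le_sqrt
  rw [Fin.sum_univ_two, Fin.sum_univ_two]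
  simp only [Real.norm_eq_abs, sq_abs]
  show x 0 ^ 2 + x 1 ^ 2 ≤ x 0 ^ 2 + (l * x 1) ^ 2
  rw [mul_pow]
  nlinarith [sq_nonneg (x 1), mul_nonneg (sub_nonneg.2 (one_le_pow₀ hl (n := 2))) (sq_nonneg (x 1))]

lemma phase_eq (z : Fin (1 + 1) → ℝ) (ξ : E 3) :
    2 * Real.pi * ph (fun _ => 1) z (yy ξ) = -⟪Phi (WithLp.toLp 2 z), ξ⟫ := by
  have h0 : (WithLp.toLp 2 z : E 2) 0 = z 0 := rfl
  have h1 : (WithLp.toLp 2 z : E 2) 1 = z 1 := rfl
  unfold ph yy Phi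
  rw [PiLp.inner_apply, Fin.sum_univ_three, Fin.sum_univ_two, Fin.sum_univ_two]
  simp only [RCLike.inner_apply, conj_trivial]
  have hpi := Real.pi_ne_zero
  have e0 : (Fin.castSucc (0 : Fin 2)) = (0 : Fin 3) := rfl
  have e1 : (Fin.castSucc (1 : Fin 2)) = (1 : Fin 3) := rfl
  have e2 : (Fin.last 2) = (2 : Fin 3) := rfl
  rw [e0, e1, e2]
  show 2 * Real.pi * (z 0 * (-(2 * Real.pi)⁻¹ * ξ 0) + z 1 * (-(2 * Real.pi)⁻¹ * ξ 1) +
    (1 * z 0 ^ 2 + 1 * z 1 ^ 2) * (-(2 * Real.pi)⁻¹ * ξ 2)) =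
    -(ξ 0 * z 0 + ξ 1 * z 1 + ξ 2 * (z 0 ^ 2 + z 1 ^ 2))
  field_simp
  ring

lemma ext_eq (l : ℝ) (hl : 1 ≤ l) (f : E 2 → ℂ) (g : (Fin (1 + 1) → ℝ) → ℂ)
    (hfg : ∀ᵐ z : Fin (1 + 1) → ℝ,
        (Metric.ball (0 : E 2) (1 / 2)).indicator f (WithLp.toLp 2 z) = g z) (ξ : E 3) :
    ext (Metric.ball (0 : E 2) (1 / 2)) (dilate l f) ξ =
      ext0 (fun _ => 1) (dil (fun _ : Fin 1 => l) g) (yy ξ) := by
  have hd : ∀ j, 1 ≤ dv (fun _ : Fin 1 => l) j := by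
    intro j
    refine Fin.cases ?_ (fun i => ?_) j
    · simp [dv]
    · simpa [dv] using hl
  obtain ⟨κ, hκ0, hκ1, hκ⟩ := dil_map (dv (fun _ : Fin 1 => l)) hd
  have h1 : ∀ᵐ z : Fin (1 + 1) → ℝ, dilate l f (WithLp.toLp 2 z) =
      g (dv (fun _ : Fin 1 => l) * z) := by
    have hq : Measure.QuasiMeasurePreserving
        (fun ξ : Fin (1 + 1) → ℝ => dv (fun _ : Fin 1 => l) * ξ) volume volume := by
      refine ⟨by fun_prop, ?_⟩
      rw [hκ]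
      exact Measure.smul_absolutelyContinuous
    have h2 := hq.ae hfg
    filter_upwards [h2] with z h3
    rw [← h3]
    unfold dilate
    congr 1
    ext j
    fin_cases j
    · simp [dv]
    · show l * z 1 = l * z 1
      rfl
  unfold ext ext0
  rw [setIntegral_eq_integral_of_forall_compl_eq_zero]
  · rw [← (PiLp.volume_preserving_toLp (Fin 2)).integral_comp
      (MeasurableEquiv.toLp 2 (Fin 2 → ℝ)).measurableEmbedding]
    apply integral_congr_ae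
    filter_upwards [h1] with z h3
    rw [h3]
    unfold dil
    rw [mul_comm]
    congr 1
    have h4 := phase_eq z ξ
    have h5 := congrArg (fun r : ℝ => (r : ℂ) * I) h4
    simp only [Complex.ofReal_mul, Complex.ofReal_neg, Complex.ofReal_ofNat] at h5
    congr 1
    rw [← h5]
    ring
  · intro x hx
    have : dilate l f x = 0 := by
      unfold dilate
      exact indicator_of_notMem (fun h => hx (mem_of_dil hl h)) _
    rw [this, mul_zero]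

lemma lint_ext (l : ℝ) (hl : 1 ≤ l) (q : ℝ) (f : E 2 → ℂ) (g : (Fin (1 + 1) → ℝ) → ℂ)
    (hfg : ∀ᵐ z : Fin (1 + 1) → ℝ,
        (Metric.ball (0 : E 2) (1 / 2)).indicator f (WithLp.toLp 2 z) = g z) :
    ∫⁻ ξ : E 3, ‖ext (Metric.ball (0 : E 2) (1 / 2)) (dilate l f) ξ‖ₑ ^ q =
      ENNReal.ofReal ((2 * Real.pi) ^ 3) *
        ∫⁻ y, ‖ext0 (fun _ => 1) (dil (fun _ : Fin 1 => l) g) y‖ₑ ^ q := by
  rw [← lint_yy]
  simp only [ext_eq l hl f g hfg]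

lemma lint_g (q : ℝ) (hq : 0 < q) (f : E 2 → ℂ) (g : (Fin (1 + 1) → ℝ) → ℂ)
    (hfg : ∀ᵐ z : Fin (1 + 1) → ℝ,
        (Metric.ball (0 : E 2) (1 / 2)).indicator f (WithLp.toLp 2 z) = g z) :
    ∫⁻ z, ‖g z‖ₑ ^ q = ∫⁻ x in Metric.ball (0 : E 2) (1 / 2), ‖f x‖ₑ ^ q := by
  have h1 : ∫⁻ z, ‖g z‖ₑ ^ q = ∫⁻ z : Fin (1 + 1) → ℝ,
      ‖(Metric.ball (0 : E 2) (1 / 2)).indicator f (WithLp.toLp 2 z)‖ₑ ^ q := by
    apply lintegral_congr_ae
    filter_upwards [hfg] with z hz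
    rw [hz]
  have h2 := (PiLp.volume_preserving_toLp (Fin 2)).lintegral_comp_emb
    (MeasurableEquiv.toLp 2 (Fin 2 → ℝ)).measurableEmbedding
    (fun x : E 2 => ‖(Metric.ball (0 : E 2) (1 / 2)).indicator f x‖ₑ ^ q)
  rw [h1]
  refine h2.trans ?_
  rw [← lintegral_indicator Metric.isOpen_ball.measurableSet]
  refine lintegral_congr fun x => ?_
  by_cases h : x ∈ Metric.ball (0 : E 2) (1 / 2)
  · rw [indicator_of_mem h, indicator_of_mem h]
  · rw [indicator_of_notMem h, indicator_of_notMem h, enorm_zero, ENNReal.zero_rpow_of_pos hq]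

/-- the equivalence of `ℝ` and `Fin 1 → ℝ` -/
noncomputable def ee : ℝ ≃ᵐ (Fin 1 → ℝ) := (MeasurableEquiv.funUnique (Fin 1) ℝ).symm

lemma ee_apply (t : ℝ) : ee t = fun _ => t := rfl

lemma pre_Icc (a b : Fin 1 → ℝ) : ee ⁻¹' (Icc a b) = Icc (a 0) (b 0) := by
  ext t
  rw [mem_preimage, ee_apply, mem_Icc, mem_Icc]
  constructor
  · intro h
    exact ⟨h.1 0, h.2 0⟩
  · intro h
    refine ⟨fun j => ?_, fun j => ?_⟩
    · rw [Subsingleton.elim j 0]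
      exact h.1
    · rw [Subsingleton.elim j 0]
      exact h.2

end NRM

open NRM in
theorem t_NRM : S_NRM := by
  intro H α q L A hα hq hq4
  obtain ⟨C, hC, hH⟩ := H (fun _ => 1) (fun _ => one_ne_zero) α q L A hα hq hq4
  have hq0 : 0 < q := by
    have : 0 < 2 / (1 + α) := by positivity
    linarith
  have hCt : ENNReal.ofReal ((2 * Real.pi) ^ 3) * C ≠ ⊤ :=
    (ENNReal.mul_lt_top ENNReal.ofReal_lt_top hC).ne
  refine ⟨(ENNReal.ofReal ((2 * Real.pi) ^ 3) * C).toNNReal, fun μ hμ f hf => ?_⟩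
  rw [ENNReal.coe_toNNReal hCt]
  obtain ⟨g, hgm, hgs, hfg⟩ := exists_rep f _ hf
  have hν : ∀ (a : Fin 1 → ℝ) (r : ℝ), 0 < r → r ≤ 1 →
      (Measure.map ee μ) (Icc a fun j => a j + r) ≤ ENNReal.ofReal (A * r ^ α) := by
    intro a r h0 h1
    rw [ee.map_apply, pre_Icc]
    exact hμ (a 0) r h0 h1
  have h1 := hH (Measure.map ee μ) hν g hgm hgs
  have h2 : ∫⁻ l in Icc (fun _ : Fin 1 => (1 : ℝ)) (fun _ => L),
      (∫⁻ y : (Fin (1 + 1) → ℝ) × ℝ, ‖ext0 (fun _ => 1) (dil l g) y‖ₑ ^ q) ∂(Measure.map ee μ) =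
      ∫⁻ l in Icc 1 L,
        (∫⁻ y : (Fin (1 + 1) → ℝ) × ℝ, ‖ext0 (fun _ => 1) (dil (fun _ : Fin 1 => l) g) y‖ₑ ^ q) ∂μ := by
    rw [ee.measurableEmbedding.restrict_map, ee.measurableEmbedding.lintegral_map, pre_Icc]
    rfl
  rw [h2] at h1
  calc ∫⁻ l in Icc 1 L, (∫⁻ ξ : E 3, ‖ext (Metric.ball 0 (1 / 2)) (dilate l f) ξ‖ₑ ^ q) ∂μ
      = ∫⁻ l in Icc 1 L, ENNReal.ofReal ((2 * Real.pi) ^ 3) *
          (∫⁻ y : (Fin (1 + 1) → ℝ) × ℝ,
            ‖ext0 (fun _ => 1) (dil (fun _ : Fin 1 => l) g) y‖ₑ ^ q) ∂μ := by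
        apply setLIntegral_congr_fun measurableSet_Icc
        intro l hl
        exact lint_ext l hl.1 q f g hfg
    _ = ENNReal.ofReal ((2 * Real.pi) ^ 3) * ∫⁻ l in Icc 1 L,
          (∫⁻ y : (Fin (1 + 1) → ℝ) × ℝ,
            ‖ext0 (fun _ => 1) (dil (fun _ : Fin 1 => l) g) y‖ₑ ^ q) ∂μ := by
        rw [lintegral_const_mul' _ _ ENNReal.ofReal_ne_top]
    _ ≤ ENNReal.ofReal ((2 * Real.pi) ^ 3) * (C * ∫⁻ ξ, ‖g ξ‖ₑ ^ q) := by gcongr
    _ = _ := by rw [lint_g q hq0 f g hfg, mul_assoc]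

end Pool.Agent.T2h38.AD
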