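import Pool.Agent.T2h38.AD.Stm

/-!
# AD/SM (helper51): small times
-/

set_option autoImplicit false

open MeasureTheory Set Complex
open scoped ENNReal NNReal FourierTransform ComplexConjugate RealInnerProductSpace

namespace Pool.Agent.T2h38.AD

open Pool.Agent.H153R4

namespace SM

theorem supp_eq {n : ℕ} {f : E n → ℝ≥0∞} (hs : ∀ z, z ∉ cube n → f z = 0) {r : ℝ} (hr : 0 < r) :
    ∫⁻ z, f z ^ r = ∫⁻ z in cube n, f z ^ r := by
  rw [← lintegral_indicator (cube_meas n)]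
  refine lintegral_congr fun z => ?_
  by_cases hz : z ∈ cube n
  · rw [indicator_of_mem hz]
  · rw [indicator_of_notMem hz, hs z hz, ENNReal.zero_rpow_of_pos hr]

/-- Hölder's inequality on the cube -/
theorem hold {n : ℕ} {p q : ℝ} (hp : 0 < p) (hpq : p < q) {f : E n → ℝ≥0∞} (hf : Measurable f)
    (hs : ∀ z, z ∉ cube n → f z = 0) :
    ∫⁻ z, f z ^ p ≤ (∫⁻ z, f z ^ q) ^ (p / q) * volume (cube n) ^ (1 - p / q) := by
  have hq : 0 < q := hp.trans hpq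
  have hc : (q / p).HolderConjugate (q / (q - p)) := by
    refine Real.holderConjugate_iff.2 ⟨(one_lt_div hp).2 hpq, ?_⟩
    rw [inv_div, inv_div]
    field_simp
    ring
  rw [supp_eq hs hp, supp_eq hs hq]
  have h := ENNReal.lintegral_mul_le_Lp_mul_Lq (volume.restrict (cube n)) hc
    (f := fun z => f z ^ p) (g := fun _ => 1) (hf.pow_const p).aemeasurable aemeasurable_const
  have e1 : ∫⁻ z in cube n, f z ^ p =
      ∫⁻ z, ((fun z : E n => f z ^ p) * (fun _ : E n => (1 : ℝ≥0∞)) : E n → ℝ≥0∞) z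
      ∂(volume.restrict (cube n)) := lintegral_congr fun z => by
    rw [Pi.mul_apply, mul_one]
  rw [e1]
  refine h.trans (le_of_eq ?_)
  have e2 : ∀ z, (f z ^ p) ^ (q / p) = f z ^ q := fun z => by
    rw [← ENNReal.rpow_mul]
    congr 1
    field_simp
  simp only [e2, ENNReal.one_rpow, lintegral_const, one_mul, Measure.restrict_apply_univ]
  congr 2
  · rw [one_div, inv_div]
  · rw [one_div, inv_div]
    field_simp

theorem sup_bd {n : ℕ} (g : E n → ℂ) (s : Fin n → ℝ) (x : E n) :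
    ‖𝓕 (ch s g) x‖ₑ ≤ ∫⁻ z, ‖g z‖ₑ := by
  rw [Real.fourier_eq]
  refine (enorm_integral_le_lintegral_enorm _).trans (le_of_eq ?_)
  refine lintegral_congr fun z => ?_
  rw [← ch_enorm s g z]
  rw [← ofReal_norm, ← ofReal_norm, Circle.norm_smul]

end SM

open SM in
theorem t_SM : S_SM := by
  intro m q hq
  have hq0 : 0 < q := by linarith
  set V : ℝ≥0∞ := volume (cube (m + 1)) with hV
  have hVf : V < ⊤ := cube_vol (m + 1)
  have h1q : 0 ≤ 1 - 1 / q := by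
    rw [sub_nonneg, div_le_one hq0]
    linarith
  have h2q : 0 ≤ 1 - 2 / q := by
    rw [sub_nonneg, div_le_one hq0]
    linarith
  refine ⟨(V ^ (1 - 1 / q)) ^ (q - 2) * V ^ (1 - 2 / q) * ENNReal.ofReal 2, ?_, ?_⟩
  · exact ENNReal.mul_lt_top (ENNReal.mul_lt_top
      (ENNReal.rpow_lt_top_of_nonneg (by linarith) (ENNReal.rpow_lt_top_of_nonneg h1q hVf.ne).ne)
      (ENNReal.rpow_lt_top_of_nonneg h2q hVf.ne)) ENNReal.ofReal_lt_top
  intro μ A α L hA hL hμ M g hg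
  have := hμ.locfin
  set J : ℝ≥0∞ := ∫⁻ z, ‖g z‖ₑ ^ q with hJ
  have hsup : ∀ z, z ∉ cube (m + 1) → ‖g z‖ₑ = 0 := fun z hz => by rw [hg.supp z hz, enorm_zero]
  have hI : ∫⁻ z, ‖g z‖ₑ ≤ J ^ (1 / q) * V ^ (1 - 1 / q) := by
    have h := hold one_pos (by linarith : (1 : ℝ) < q) hg.meas.enorm hsup
    simpa only [ENNReal.rpow_one] using h
  have hI2 : ∫⁻ z, ‖g z‖ₑ ^ 2 ≤ J ^ (2 / q) * V ^ (1 - 2 / q) := by
    have h := hold two_pos hq hg.meas.enorm hsup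
    simpa only [ENNReal.rpow_ofNat] using h
  have hin : ∀ s : Fin (m + 1) → ℝ, ∫⁻ x, ‖𝓕 (ch s g) x‖ₑ ^ q ≤
      (V ^ (1 - 1 / q)) ^ (q - 2) * V ^ (1 - 2 / q) * J := by
    intro s
    have h1 : ∀ x, ‖𝓕 (ch s g) x‖ₑ ^ q ≤ (∫⁻ z, ‖g z‖ₑ) ^ (q - 2) * ‖𝓕 (ch s g) x‖ₑ ^ 2 := by
      intro x
      have h2 : ‖𝓕 (ch s g) x‖ₑ ^ q = ‖𝓕 (ch s g) x‖ₑ ^ (q - 2) * ‖𝓕 (ch s g) x‖ₑ ^ 2 := by
        rw [← ENNReal.rpow_two, ← ENNReal.rpow_add_of_nonneg _ _ (by linarith) (by norm_num)]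
        congr 1
        ring
      rw [h2]
      exact mul_le_mul' (ENNReal.rpow_le_rpow (sup_bd g s x) (by linarith)) le_rfl
    have hm : Measurable fun x : E (m + 1) => ‖𝓕 (ch s g) x‖ₑ ^ 2 :=
      (F_cont (hg.ch s)).measurable.enorm.pow_const 2
    calc ∫⁻ x, ‖𝓕 (ch s g) x‖ₑ ^ q
        ≤ ∫⁻ x, (∫⁻ z, ‖g z‖ₑ) ^ (q - 2) * ‖𝓕 (ch s g) x‖ₑ ^ 2 := lintegral_mono h1
      _ = (∫⁻ z, ‖g z‖ₑ) ^ (q - 2) * ∫⁻ z, ‖g z‖ₑ ^ 2 := by
          rw [lintegral_const_mul _ hm, two_ch hg s]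
      _ ≤ (J ^ (1 / q) * V ^ (1 - 1 / q)) ^ (q - 2) * (J ^ (2 / q) * V ^ (1 - 2 / q)) := by
          exact mul_le_mul' (ENNReal.rpow_le_rpow hI (by linarith)) hI2
      _ = (V ^ (1 - 1 / q)) ^ (q - 2) * V ^ (1 - 2 / q) * (J ^ ((1 / q) * (q - 2)) * J ^ (2 / q)) := by
          rw [ENNReal.mul_rpow_of_nonneg _ _ (by linarith : (0 : ℝ) ≤ q - 2), ← ENNReal.rpow_mul]
          ring
      _ = (V ^ (1 - 1 / q)) ^ (q - 2) * V ^ (1 - 2 / q) * J := by
          rw [← ENNReal.rpow_add_of_nonneg _ _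
            (mul_nonneg (by positivity) (by linarith)) (by positivity)]
          have : 1 / q * (q - 2) + 2 / q = 1 := by
            field_simp
            ring
          rw [this, ENNReal.rpow_one]
  unfold II
  refine (lintegral_mono fun p => hin (sv p)).trans ?_
  rw [lintegral_const]
  have hm : ((volume.restrict (Icc (-1 : ℝ) 1)).prod
      (μ.restrict (Icc (fun _ : Fin m => -L) (fun _ => L)))) univ =
      volume (Icc (-1 : ℝ) 1) * μ (Icc (fun _ : Fin m => -L) (fun _ => L)) := by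
    rw [← univ_prod_univ, Measure.prod_prod, Measure.restrict_apply_univ,
      Measure.restrict_apply_univ]
  rw [hm, Real.volume_Icc]
  calc (V ^ (1 - 1 / q)) ^ (q - 2) * V ^ (1 - 2 / q) * J *
        (ENNReal.ofReal (1 - -1) * μ (Icc (fun _ : Fin m => -L) (fun _ => L)))
      ≤ (V ^ (1 - 1 / q)) ^ (q - 2) * V ^ (1 - 2 / q) * J *
        (ENNReal.ofReal 2 * ENNReal.ofReal (NL m L * A)) := by
        gcongr
        · norm_num
        · exact hμ.mass L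
    _ = _ := by ring

end Pool.Agent.T2h38.AD
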