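import Pool.Agent.T2h38.AD.Stm

/-!
# AD/UB (helper51): from bounded to unbounded functions
-/

set_option autoImplicit false

open MeasureTheory Set Complex Filter Topology
open scoped ENNReal NNReal FourierTransform ComplexConjugate RealInnerProductSpace

namespace Pool.Agent.T2h38.AD

open Pool.Agent.H153R4

namespace UB

/-- the truncation -/
noncomputable def tru {n : ℕ} (g : E n → ℂ) (k : ℕ) (z : E n) : ℂ := if ‖g z‖ ≤ k then g z else 0

theorem tru_BS {n : ℕ} {g : E n → ℂ} (hg : Measurable g) (hs : ∀ z, z ∉ cube n → g z = 0) (k : ℕ) :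
    BS k (tru g k) := by
  refine ⟨Measurable.ite (measurableSet_le hg.norm measurable_const) hg measurable_const,
    fun z => ?_, fun z hz => ?_⟩
  · unfold tru
    split_ifs with h
    · exact h
    · rw [norm_zero]
      exact Nat.cast_nonneg k
  · unfold tru
    rw [hs z hz, ite_self]

theorem tru_le {n : ℕ} (g : E n → ℂ) (k : ℕ) (z : E n) : ‖tru g k z‖ₑ ≤ ‖g z‖ₑ := by
  unfold tru
  split_ifs
  · exact le_rfl
  · rw [enorm_zero]
    exact zero_le

theorem tru_norm_le {n : ℕ} (g : E n → ℂ) (k : ℕ) (z : E n) : ‖tru g k z‖ ≤ ‖g z‖ := by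
  unfold tru
  split_ifs
  · exact le_rfl
  · rw [norm_zero]
    exact norm_nonneg _

theorem tru_tendsto {n : ℕ} (g : E n → ℂ) (z : E n) :
    Tendsto (fun k : ℕ => tru g k z) atTop (𝓝 (g z)) := by
  obtain ⟨N, hN⟩ := exists_nat_ge ‖g z‖
  refine tendsto_const_nhds.congr' ?_
  filter_upwards [eventually_ge_atTop N] with k hk
  unfold tru
  rw [if_pos (hN.trans (by exact_mod_cast hk))]

theorem integ {n : ℕ} {q : ℝ} (hq : 1 ≤ q) {g : E n → ℂ} (hg : Measurable g)
    (hs : ∀ z, z ∉ cube n → g z = 0) (hJ : ∫⁻ z, ‖g z‖ₑ ^ q ≠ ⊤) : Integrable g := by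
  refine ⟨hg.aestronglyMeasurable, ?_⟩
  unfold HasFiniteIntegral
  have h1 : ∀ z, ‖g z‖ₑ ≤ (cube n).indicator (fun _ => 1) z + ‖g z‖ₑ ^ q := by
    intro z
    by_cases hz : z ∈ cube n
    · rw [indicator_of_mem hz]
      rcases le_or_gt ‖g z‖ₑ 1 with h | h
      · exact h.trans le_self_add
      · refine le_trans ?_ le_add_self
        calc ‖g z‖ₑ = ‖g z‖ₑ ^ (1 : ℝ) := (ENNReal.rpow_one _).symm
          _ ≤ ‖g z‖ₑ ^ q := ENNReal.rpow_le_rpow_of_exponent_le h.le hq
    · rw [hs z hz, enorm_zero]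
      exact zero_le
  refine (lintegral_mono h1).trans_lt ?_
  rw [lintegral_add_left (measurable_const.indicator (cube_meas n)),
    lintegral_indicator (cube_meas n), lintegral_const, one_mul, Measure.restrict_apply_univ]
  exact ENNReal.add_lt_top.2 ⟨cube_vol n, lt_top_iff_ne_top.2 hJ⟩

theorem fou_tendsto {n : ℕ} {g : E n → ℂ} (hg : Measurable g) (hs : ∀ z, z ∉ cube n → g z = 0)
    (hi : Integrable g) (s : Fin n → ℝ) (x : E n) :
    Tendsto (fun k : ℕ => 𝓕 (ch s (tru g k)) x) atTop (𝓝 (𝓕 (ch s g) x)) := by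
  simp only [Real.fourier_eq]
  refine tendsto_integral_of_dominated_convergence (fun z => ‖g z‖) (fun k => ?_) hi.norm
    (fun k => ae_of_all _ fun z => ?_) (ae_of_all _ fun z => ?_)
  · have h1 : Measurable (ch s (tru g k)) := ((tru_BS hg hs k).ch s).meas
    have h2 : Continuous fun v : E n => Real.fourierChar (-⟪v, x⟫) :=
      Real.continuous_fourierChar.comp (by fun_prop)
    have h3 : Measurable fun v : E n => ((Real.fourierChar (-⟪v, x⟫) : Circle) : ℂ) :=
      (continuous_subtype_val.comp h2).measurable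
    exact (h3.mul h1).aestronglyMeasurable
  · rw [Circle.norm_smul, ch_norm]
    exact tru_norm_le g k z
  · refine Tendsto.const_smul ?_ _
    unfold ch
    exact (tru_tendsto g z).const_mul _

end UB

open UB in
theorem t_UB : S_UB := by
  intro m q L hq C μ _ h g hg hs
  by_cases hJ : ∫⁻ z, ‖g z‖ₑ ^ q = ⊤
  · rw [hJ, ENNReal.mul_top (by simp)]
    exact le_top
  have hq0 : 0 ≤ q := by linarith
  have hi := integ hq hg hs hJ
  have hlim : ∀ (p : ℝ × (Fin m → ℝ)) (x : E (m + 1)), ‖𝓕 (ch (sv p) g) x‖ₑ ^ q =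
      liminf (fun k : ℕ => ‖𝓕 (ch (sv p) (tru g k)) x‖ₑ ^ q) atTop := by
    intro p x
    refine (Tendsto.liminf_eq ?_).symm
    exact (ENNReal.continuous_rpow_const.tendsto _).comp
      ((continuous_enorm.tendsto _).comp (fou_tendsto hg hs hi (sv p) x))
  have hstep : ∀ k : ℕ, II μ L q univ (tru g k) ≤ C * ∫⁻ z, ‖g z‖ₑ ^ q := by
    intro k
    refine (h k (tru g k) (tru_BS hg hs k)).trans ?_
    gcongr with z
    exact tru_le g k z
  have h1 : ∀ p : ℝ × (Fin m → ℝ), ∫⁻ x, ‖𝓕 (ch (sv p) g) x‖ₑ ^ q ≤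
      liminf (fun k : ℕ => ∫⁻ x, ‖𝓕 (ch (sv p) (tru g k)) x‖ₑ ^ q) atTop := by
    intro p
    rw [lintegral_congr (hlim p)]
    exact lintegral_liminf_le fun k =>
      (F_cont ((tru_BS hg hs k).ch (sv p))).measurable.enorm.pow_const q
  calc II μ L q univ g
      ≤ ∫⁻ p, liminf (fun k : ℕ => ∫⁻ x, ‖𝓕 (ch (sv p) (tru g k)) x‖ₑ ^ q) atTop
          ∂((volume.restrict univ).prod (μ.restrict (Icc (fun _ => -L) (fun _ => L)))) :=
        lintegral_mono h1
    _ ≤ liminf (fun k : ℕ => II μ L q univ (tru g k)) atTop :=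
        lintegral_liminf_le fun k => G_meas q (tru_BS hg hs k).meas
    _ ≤ C * ∫⁻ z, ‖g z‖ₑ ^ q := by
        refine (liminf_le_liminf (Eventually.of_forall hstep)).trans (le_of_eq ?_)
        exact liminf_const _
    _ ≤ (C + 1) * ∫⁻ z, ‖g z‖ₑ ^ q := by
        gcongr
        exact le_self_add

end Pool.Agent.T2h38.AD
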